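import Pool.Agent.H78.Rigidity

open MeasureTheory Metric Set Filter
open scoped ENNReal Pointwise Topology

namespace H78

/-- unit vector of angle `t` -/
noncomputable def uv (t : ℝ) : Plane := WithLp.toLp 2 ![Real.cos t, Real.sin t]

lemma uv0 (t : ℝ) : uv t 0 = Real.cos t := by simp [uv]
lemma uv1 (t : ℝ) : uv t 1 = Real.sin t := by simp [uv]

lemma norm_uv (t : ℝ) : ‖uv t‖ = 1 := by
  rw [EuclideanSpace.norm_eq]
  simp [Fin.sum_univ_two, uv0, uv1]

lemma uv_ne (t : ℝ) : uv t ≠ 0 := by
  intro h; have := norm_uv t; rw [h, norm_zero] at this; exact zero_ne_one this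

lemma continuous_uv : Continuous uv := by
  unfold uv
  refine (PiLp.continuous_toLp 2 _).comp ?_
  refine continuous_pi fun i => ?_
  fin_cases i
  · simpa using Real.continuous_cos
  · simpa using Real.continuous_sin

lemma br_uv (s t : ℝ) : br (uv s) (uv t) = Real.sin (t - s) := by
  rw [br, uv0, uv1, uv0, uv1, Real.sin_sub]; ring

lemma exists_polar (z : Plane) : ∃ t : ℝ, z = ‖z‖ • uv t := by
  by_cases hz : z = 0
  · exact ⟨0, by simp [hz]⟩
  set w : ℂ := ⟨z 0, z 1⟩ with hw
  have hn : ‖w‖ = ‖z‖ := by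
    rw [EuclideanSpace.norm_eq, Complex.norm_def, Complex.normSq_apply]
    congr 1
    simp [Fin.sum_univ_two, hw, pow_two]
  have hw0 : w ≠ 0 := by
    rw [← norm_ne_zero_iff, hn]; exact norm_ne_zero_iff.2 hz
  refine ⟨Complex.arg w, plane_ext ?_ ?_⟩
  · rw [PiLp.smul_apply, uv0, smul_eq_mul, ← hn, Complex.norm_mul_cos_arg]
  · rw [PiLp.smul_apply, uv1, smul_eq_mul, ← hn, Complex.norm_mul_sin_arg]

section
variable {C : Set Plane}

/-- facts on the gauge of a compact convex set with `0` in the interior -/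
lemma zero_mem_interior_of_symm (hconv : Convex ℝ C) (hint : (interior C).Nonempty)
    (hsymm : ∀ x ∈ C, -x ∈ C) : (0 : Plane) ∈ interior C := by
  obtain ⟨z, hz⟩ := hint
  have hz' : -z ∈ C := hsymm z (interior_subset hz)
  have := hconv.combo_interior_closure_mem_interior hz (subset_closure hz') (a := 1 / 2) (b := 1 / 2)
    (by norm_num) (by norm_num) (by norm_num)
  convert this using 1
  module

lemma mem_iff_gauge (hcomp : IsCompact C) (hconv : Convex ℝ C) (h0 : (0 : Plane) ∈ interior C)
    (z : Plane) : z ∈ C ↔ gauge C z ≤ 1 := by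
  rw [gauge_le_one_iff_mem_closure hconv (mem_interior_iff_mem_nhds.1 h0), hcomp.isClosed.closure_eq]

lemma gauge_pos' (hcomp : IsCompact C) (h0 : (0 : Plane) ∈ interior C) {z : Plane} (hz : z ≠ 0) :
    0 < gauge C z :=
  (gauge_pos (absorbent_nhds_zero (mem_interior_iff_mem_nhds.1 h0))
    (NormedSpace.isVonNBounded_of_isBounded ℝ hcomp.isBounded)).2 hz

lemma maxChord_of_symm (hcomp : IsCompact C) (hconv : Convex ℝ C) (h0 : (0 : Plane) ∈ interior C)
    (hsymm : ∀ x ∈ C, -x ∈ C) {a : Plane} (ha : gauge C a = 1) : MaxChord C a := by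
  have haC : a ∈ C := (mem_iff_gauge hcomp hconv h0 a).2 ha.le
  refine ⟨⟨-a, hsymm a haC, a, haC, by module⟩, ?_⟩
  intro t ht P hP Q hQ h
  have hta : t • a ∈ C := by
    have := hconv hQ (hsymm P hP) (a := 1 / 2) (b := 1 / 2) (by norm_num) (by norm_num) (by norm_num)
    convert this using 1
    have : Q = P + (2 * t) • a := by rw [← h]; abel
    rw [this]; module
  rw [mem_iff_gauge hcomp hconv h0, gauge_smul_of_nonneg (by linarith), ha] at hta
  simp only [smul_eq_mul, mul_one] at hta
  linarith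

/-- In a symmetric body attaining equality every boundary point is the vertex of a critical
hexagon. -/
lemma exists_hex (hcomp : IsCompact C) (hconv : Convex ℝ C) (h0 : (0 : Plane) ∈ interior C)
    (hsymm : ∀ x ∈ C, -x ∈ C) {K : ℝ}
    (hex : ∀ a, MaxChord C a → ∃ x ∈ C, x + a ∈ C ∧ ∃ y ∈ C, y + a ∈ C ∧ br a (y - x) = K)
    (hub : ∀ x ∈ C, ∀ y ∈ C, ∀ a, x + a ∈ C → y + a ∈ C → ∀ A ∈ C, ∀ B ∈ C,
        br (a + (B - A)) (y - x) ≤ 3 * K) {a : Plane} (ha : gauge C a = 1) :
    ∃ p, Hex C (K / 2) a p := by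
  have haC : a ∈ C := (mem_iff_gauge hcomp hconv h0 a).2 ha.le
  obtain ⟨x, hx, hxa, y, hy, hya, hbr⟩ := hex a (maxChord_of_symm hcomp hconv h0 hsymm ha)
  set q : Plane := (1 / 2 : ℝ) • y + (1 / 2 : ℝ) • (-(x + a)) with hq
  have hqC : q ∈ C := hconv hy (hsymm _ hxa) (by norm_num) (by norm_num) (by norm_num)
  have hpC : q + a ∈ C := by
    have := hconv hya (hsymm _ hx) (a := 1 / 2) (b := 1 / 2) (by norm_num) (by norm_num) (by norm_num)
    convert this using 1
    rw [hq]; module
  set p := q + a with hp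
  have hqa : p - a = q := by rw [hp]; abel
  have hap : br a p = K / 2 := by
    rw [hp, hq, br_add_right, br_add_right, br_smul_right, br_smul_right, br_neg_right,
      br_add_right, br_self]
    rw [br_sub_right] at hbr
    linarith
  have hpa := br_swap p a
  refine ⟨p, ⟨haC, hpC, by rw [hqa]; exact hqC, hap, ?_, ?_, ?_⟩⟩
  · intro z hz
    have := hub (-p) (hsymm _ hpC) q hqC a (by
      have : -p + a = -q := by rw [hp]; abel
      rw [this]; exact hsymm _ hqC) hpC (-z) (hsymm _ hz) z hz
    have e : q - -p = (2 : ℝ) • p - a := by rw [hp]; module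
    rw [e] at this
    have e2 : a + (z - -z) = a + (2 : ℝ) • z := by module
    rw [e2, br_add_left, br_smul_left] at this
    have e3 : br a ((2 : ℝ) • p - a) = K := by
      rw [br_sub_right, br_smul_right, br_self, hap]; ring
    linarith
  · intro z hz
    have := hub (-q) (hsymm _ hqC) (-a) (hsymm _ haC) p (by
      have : -q + p = a := by rw [hp]; abel
      rw [this]; exact haC) (by
      have : -a + p = q := by rw [hp]; abel
      rw [this]; exact hqC) (-z) (hsymm _ hz) z hz
    have e : -a - -q = p - (2 : ℝ) • a := by rw [hp]; module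
    rw [e] at this
    have e2 : p + (z - -z) = p + (2 : ℝ) • z := by module
    rw [e2, br_add_left, br_smul_left] at this
    have e3 : br p (p - (2 : ℝ) • a) = K := by
      rw [br_sub_right, br_smul_right, br_self, hpa, hap]; ring
    linarith
  · intro z hz
    have := hub a haC (-p) (hsymm _ hpC) q (by
      have : a + q = p := by rw [hp]; abel
      rw [this]; exact hpC) (by
      have : -p + q = -a := by rw [hp]; abel
      rw [this]; exact hsymm _ haC) (-z) (hsymm _ hz) z hz
    have e : -p - a = -(a + p) := by abel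
    rw [e] at this
    have e2 : q + (z - -z) = q + (2 : ℝ) • z := by module
    rw [e2, br_add_left, br_smul_left] at this
    have e3 : br q (-(a + p)) = K := by
      have : q = p - a := hqa.symm
      rw [this, br_neg_right, br_add_right, br_sub_left, br_sub_left, br_self, br_self, hpa, hap]
      ring
    linarith

/-- the squared gauge is a quadratic form -/
lemma gauge_sq_eq (hcomp : IsCompact C) (hconv : Convex ℝ C) (h0 : (0 : Plane) ∈ interior C)
    {κ : ℝ} (hκ : 0 < κ) (hhex : ∀ a, gauge C a = 1 → ∃ p, Hex C κ a p) :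
    ∃ a p, Hex C κ a p ∧ ∀ z, gauge C z ^ 2 = qf κ a p z := by
  set N := gauge C with hN
  have hNcont : Continuous N := continuous_gauge hconv (mem_interior_iff_mem_nhds.1 h0)
  have hNpos : ∀ t, 0 < N (uv t) := fun t => gauge_pos' hcomp h0 (uv_ne t)
  set a : ℝ → Plane := fun t => (N (uv t))⁻¹ • uv t with ha
  have hNa : ∀ t, N (a t) = 1 := by
    intro t
    rw [ha, hN, gauge_smul_of_nonneg (inv_nonneg.2 (hNpos t).le), smul_eq_mul]
    exact inv_mul_cancel₀ (hNpos t).ne'
  have hacont : Continuous a :=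
    ((hNcont.comp continuous_uv).inv₀ (fun t => (hNpos t).ne')).smul continuous_uv
  choose p hp using fun t => hhex (a t) (hNa t)
  obtain ⟨R, hR⟩ := hcomp.isBounded.subset_closedBall 0
  have hR' : ∀ z ∈ C, ‖z‖ ≤ R := fun z hz => by simpa using hR hz
  have hR0 : 0 ≤ R := (norm_nonneg _).trans (hR' 0 (interior_subset h0))
  have hlam : ∀ t, (N (uv t))⁻¹ ≤ R := by
    intro t
    have := hR' _ (hp t).ha
    rw [ha] at this
    simp only [norm_smul, norm_uv, mul_one, norm_inv, Real.norm_eq_abs, abs_of_pos (hNpos t)] at this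
    exact this
  have hlam0 : ∀ t, 0 ≤ (N (uv t))⁻¹ := fun t => inv_nonneg.2 (hNpos t).le
  have hbra : ∀ s t, |br (a t) (a s)| ≤ R ^ 2 * |s - t| := by
    intro s t
    rw [ha]
    simp only [br_smul_left, br_smul_right, br_uv]
    rw [abs_mul, abs_mul, abs_of_nonneg (hlam0 t), abs_of_nonneg (hlam0 s)]
    have h1 : |Real.sin (s - t)| ≤ |s - t| := Real.abs_sin_le_abs
    calc (N (uv s))⁻¹ * ((N (uv t))⁻¹ * |Real.sin (s - t)|) ≤ R * (R * |s - t|) :=
          mul_le_mul (hlam s) (mul_le_mul (hlam t) h1 (abs_nonneg _) hR0)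
            (mul_nonneg (hlam0 t) (abs_nonneg _)) hR0
      _ = R ^ 2 * |s - t| := by ring
  -- constancy
  have hconst : ∀ z s t, qf κ (a s) (p s) z = qf κ (a t) (p t) z := by
    intro z
    apply const_of_sq
    intro t
    set M := ‖z‖ * R / κ with hM
    refine ⟨2000 * M ^ 2 * (R ^ 2 / κ) ^ 2, ?_⟩
    have ev1 : ∀ᶠ s in 𝓝 t, ‖a s - a t‖ * R < κ / 2 := by
      have hc : Continuous fun s => ‖a s - a t‖ * R := by fun_prop
      have := hc.tendsto t
      simp only [sub_self, norm_zero, zero_mul] at this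
      exact this.eventually_lt_const (by positivity)
    have ev2 : ∀ᶠ s in 𝓝 t, R ^ 2 * |s - t| < κ / 8 := by
      have hc : Continuous fun s => R ^ 2 * |s - t| := by fun_prop
      have := hc.tendsto t
      simp only [sub_self, abs_zero, mul_zero] at this
      exact this.eventually_lt_const (by positivity)
    filter_upwards [ev1, ev2] with s h1 h2
    have hbrs := hbra s t
    have g4 : κ / 2 ≤ br (a t) (p s) := by
      have e : br (a t) (p s) = κ - br (a s - a t) (p s) := by
        rw [br_sub_left, (hp s).hbr]; ring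
      have h3 := (le_abs_self _).trans (abs_br_le (a s - a t) (p s))
      have h4 : ‖a s - a t‖ * ‖p s‖ ≤ ‖a s - a t‖ * R :=
        mul_le_mul_of_nonneg_left (hR' _ (hp s).hp) (norm_nonneg _)
      linarith
    have gX : |br z (p t) / κ| ≤ M := by
      rw [abs_div, abs_of_pos hκ, hM]
      apply div_le_div_of_nonneg_right _ hκ.le
      exact (abs_br_le _ _).trans (mul_le_mul_of_nonneg_left (hR' _ (hp t).hp) (norm_nonneg _))
    have gY : |br (a t) z / κ| ≤ M := by
      rw [abs_div, abs_of_pos hκ, hM]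
      apply div_le_div_of_nonneg_right _ hκ.le
      rw [mul_comm]
      exact (abs_br_le _ _).trans (mul_le_mul_of_nonneg_right (hR' _ (hp t).ha) (norm_nonneg _))
    have := (hp t).close hκ (hp s) g4 (by linarith) gX gY
    refine this.trans ?_
    have h5 : (br (a t) (a s) / κ) ^ 2 ≤ (R ^ 2 * |s - t| / κ) ^ 2 := by
      rw [← sq_abs (br (a t) (a s) / κ), abs_div, abs_of_pos hκ]
      gcongr
    calc 2000 * M ^ 2 * (br (a t) (a s) / κ) ^ 2 ≤ 2000 * M ^ 2 * (R ^ 2 * |s - t| / κ) ^ 2 := by
          gcongr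
      _ = 2000 * M ^ 2 * (R ^ 2 / κ) ^ 2 * |s - t| ^ 2 := by ring
      _ = _ := by rw [sq_abs]
  refine ⟨a 0, p 0, hp 0, ?_⟩
  intro z
  obtain ⟨t, ht⟩ := exists_polar z
  rw [hconst z 0 t]
  have hz : z = N z • a t := by
    have h1 : N z = ‖z‖ * N (uv t) := by
      conv_lhs => rw [ht]
      rw [hN, gauge_smul_of_nonneg (norm_nonneg _), smul_eq_mul]
    rw [h1, ha]
    conv_lhs => rw [ht]
    rw [smul_smul]
    congr 1
    have := (hNpos t).ne'
    field_simp
  have e1 : br z (p t) = N z * κ := by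
    conv_lhs => rw [hz]
    rw [br_smul_left, (hp t).hbr]
  have e2 : br (a t) z = 0 := by
    conv_lhs => rw [hz]
    rw [br_smul_right, br_self, mul_zero]
  rw [qf, e1, e2]
  field_simp
  ring

/-- affine image of the closed unit disk -/
def IsEllipse (C : Set Plane) : Prop :=
  ∃ e : Plane ≃ᵃ[ℝ] Plane, C = e '' closedBall 0 1

/-- the linear normalisation of the hexagon -/
noncomputable def nrm (κ : ℝ) (a p : Plane) : Plane →ₗ[ℝ] Plane :=
  mat2 (p 1 / κ - a 1 / (2 * κ)) (-(p 0) / κ + a 0 / (2 * κ))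
    (-(√3 / 2) * a 1 / κ) ((√3 / 2) * a 0 / κ)

lemma nrm_det {κ : ℝ} (hκ : 0 < κ) {a p : Plane} (h : br a p = κ) :
    LinearMap.det (nrm κ a p) = √3 / (2 * κ) := by
  rw [nrm, det_mat2]
  have : a 0 * p 1 - a 1 * p 0 = κ := h
  field_simp
  linear_combination (2 : ℝ) * this

lemma nrm_norm {κ : ℝ} (hκ : 0 < κ) (a p z : Plane) : ‖nrm κ a p z‖ ^ 2 = qf κ a p z := by
  rw [EuclideanSpace.norm_sq_eq, Fin.sum_univ_two, nrm, mat2_apply0, mat2_apply1]
  simp only [Real.norm_eq_abs, sq_abs, qf, br]
  have h3 : √3 ^ 2 = 3 := Real.sq_sqrt (by norm_num)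
  field_simp
  ring_nf
  rw [h3]
  ring

/-- A body whose squared gauge is the quadratic form of a hexagon is an ellipse of area
`2πκ/√3`. -/
lemma ellipse_of_form (hcomp : IsCompact C) (hconv : Convex ℝ C) (h0 : (0 : Plane) ∈ interior C)
    {κ : ℝ} (hκ : 0 < κ) {a p : Plane} (hap : br a p = κ)
    (hN : ∀ z, gauge C z ^ 2 = qf κ a p z) (c : Plane) :
    IsEllipse ((fun z => c + z) '' C) ∧
      volume C = ENNReal.ofReal (2 * κ * Real.pi / √3) := by
  have hdet := nrm_det hκ hap
  have h3 : (0 : ℝ) < √3 := by positivity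
  have hdet0 : LinearMap.det (nrm κ a p) ≠ 0 := by rw [hdet]; positivity
  have hmem : ∀ z, z ∈ C ↔ nrm κ a p z ∈ closedBall (0 : Plane) 1 := by
    intro z
    rw [mem_iff_gauge hcomp hconv h0, mem_closedBall_zero_iff, ← sq_le_one_iff₀ (norm_nonneg _),
      nrm_norm hκ, ← hN, sq_le_one_iff₀ (gauge_nonneg _)]
  have hpre : C = nrm κ a p ⁻¹' closedBall (0 : Plane) 1 := by
    ext z; exact hmem z
  constructor
  · set L := (nrm κ a p).equivOfDetNeZero hdet0 with hL
    refine ⟨(L.symm.toAffineEquiv).trans (AffineEquiv.constVAdd ℝ Plane c), ?_⟩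
    ext w
    constructor
    · rintro ⟨z, hz, rfl⟩
      refine ⟨L z, (hmem z).1 hz, ?_⟩
      simp
    · rintro ⟨y, hy, rfl⟩
      refine ⟨L.symm y, (hmem _).2 ?_, ?_⟩
      · have : nrm κ a p (L.symm y) = y := L.apply_symm_apply y
        rw [this]; exact hy
      · simp
  · conv_lhs => rw [hpre]
    rw [Measure.addHaar_preimage_linearMap _ hdet0, hdet, vol_ball _ zero_le_one,
      ← ENNReal.ofReal_mul (abs_nonneg _), abs_of_pos (by positivity)]
    congr 1
    field_simp

lemma IsCopy_image_iff {C : Set Plane} (e : Plane ≃ᵢ Plane) (A : Set Plane) :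
    IsCopy (e '' C) A ↔ IsCopy C A := by
  constructor
  · rintro ⟨φ, rfl⟩
    exact ⟨e.trans φ, by rw [image_image]; rfl⟩
  · rintro ⟨φ, rfl⟩
    refine ⟨e.symm.trans φ, ?_⟩
    rw [image_image]
    congr 1
    ext z : 1
    simp

lemma packingDensity_image (C : Set Plane) (e : Plane ≃ᵢ Plane) :
    packingDensity (e '' C) = packingDensity C := by
  have : IsPacking (e '' C) = IsPacking C := by
    funext 𝒜
    simp only [IsPacking, IsCopy_image_iff]
  rw [packingDensity, packingDensity, this]

lemma coveringDensity_image (C : Set Plane) (e : Plane ≃ᵢ Plane) :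
    coveringDensity (e '' C) = coveringDensity C := by
  have : IsCovering (e '' C) = IsCovering C := by
    funext 𝒜
    simp only [IsCovering, IsCopy_image_iff]
  rw [coveringDensity, coveringDensity, this]

lemma IsConvexBody.image {C : Set Plane} (hC : IsConvexBody C) (c : Plane) :
    IsConvexBody ((fun z => c + z) '' C) := by
  obtain ⟨h1, h2, h3⟩ := hC
  refine ⟨h1.image (by fun_prop), ?_, ?_⟩
  · exact h2.translate c
  · have : interior ((fun z => c + z) '' C) = (fun z => c + z) '' interior C :=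
      ((Homeomorph.addLeft c).image_interior C).symm
    rw [this]; exact h3.image _

/-- the numerical values, from the area -/
lemma values_of_area {C : Set Plane} {K : ℝ} (hK : 0 < K)
    (hvol : volume C = ENNReal.ofReal (K * Real.pi / √3)) 
    (hp : packingDensity C = volume C / ENNReal.ofReal (2 * K))
    (hc : coveringDensity C = 2 * volume C / ENNReal.ofReal (3 * K)) :
    packingDensity C = ENNReal.ofReal (Real.pi / (2 * √3)) ∧
    coveringDensity C = ENNReal.ofReal (2 * Real.pi / (3 * √3)) := by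
  have h3 : (0 : ℝ) < √3 := by positivity
  have hpi := Real.pi_pos
  constructor
  · rw [hp, hvol, ← ENNReal.ofReal_div_of_pos (by positivity)]
    congr 1
    field_simp
  · rw [hc, hvol, ← ENNReal.ofReal_ofNat 2, ← ENNReal.ofReal_mul (by positivity),
      ← ENNReal.ofReal_div_of_pos (by positivity)]
    congr 1
    field_simp

/-- Centrally symmetric plane convex bodies with `θ = (4/3) δ` are ellipses. -/
theorem symmetric_case {C : Set Plane} (hC : IsConvexBody C) (c : Plane)
    (hsymm : ∀ x ∈ C, (2 : ℝ) • c - x ∈ C)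
    (heq : coveringDensity C = 4 / 3 * packingDensity C) :
    IsEllipse C ∧ packingDensity C = ENNReal.ofReal (Real.pi / (2 * √3)) ∧
      coveringDensity C = ENNReal.ofReal (2 * Real.pi / (3 * √3)) := by
  set C' : Set Plane := (fun z => -c + z) '' C with hC'
  have hiso : C' = (IsometryEquiv.addLeft (-c) : Plane ≃ᵢ Plane) '' C := rfl
  have hbody : IsConvexBody C' := hC.image (-c)
  have hpC : packingDensity C' = packingDensity C := by rw [hiso, packingDensity_image]
  have hcC : coveringDensity C' = coveringDensity C := by rw [hiso, coveringDensity_image]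
  have heq' : coveringDensity C' = 4 / 3 * packingDensity C' := by rw [hpC, hcC, heq]
  have hsymm' : ∀ x ∈ C', -x ∈ C' := by
    rintro _ ⟨z, hz, rfl⟩
    exact ⟨(2 : ℝ) • c - z, hsymm z hz, by simp only; module⟩
  obtain ⟨K, hK, hp, hc, hex, -, hub⟩ := equality_structure hbody heq'
  obtain ⟨hcomp, hconv, hint⟩ := hbody
  have h0 := zero_mem_interior_of_symm hconv hint hsymm'
  obtain ⟨a, p, H, hN⟩ := gauge_sq_eq hcomp hconv h0 (κ := K / 2) (by positivity)
    (fun a ha => exists_hex hcomp hconv h0 hsymm' hex hub ha)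
  obtain ⟨hell, hvol⟩ := ellipse_of_form hcomp hconv h0 (by positivity) H.hbr hN c
  have hCC : (fun z => c + z) '' C' = C := by
    rw [hC', image_image]; simp
  rw [hCC] at hell
  have hvol' : volume C' = ENNReal.ofReal (K * Real.pi / √3) := by
    rw [hvol]; congr 1; ring
  have := values_of_area hK hvol' hp hc
  rw [hpC, hcC] at this
  exact ⟨hell, this⟩

end

end H78
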