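import Pool.Agent.H78.NoSegment
import Pool.Agent.H78.Symmetric

open MeasureTheory Metric Set Filter
open scoped ENNReal Pointwise Topology

namespace H78

/-- The consequences of equality used below. -/
structure Crit (C : Set Plane) (K : ℝ) : Prop where
  pos : 0 < K
  hex : ∀ a, MaxChord C a → ∃ x ∈ C, x + a ∈ C ∧ ∃ y ∈ C, y + a ∈ C ∧ br a (y - x) = K
  ub1 : ∀ a, MaxChord C a → ∀ x ∈ C, x + a ∈ C → ∀ y ∈ C, y + a ∈ C → br a (y - x) ≤ K
  ub2 : ∀ x ∈ C, ∀ y ∈ C, ∀ a, x + a ∈ C → y + a ∈ C → ∀ A ∈ C, ∀ B ∈ C,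
        br (a + (B - A)) (y - x) ≤ 3 * K

/-- unit normal direction -/
noncomputable def un (t : ℝ) : Plane := uv (t + Real.pi / 2)

lemma un0 (t : ℝ) : un t 0 = -Real.sin t := by rw [un, uv0, Real.cos_add_pi_div_two]
lemma un1 (t : ℝ) : un t 1 = Real.cos t := by rw [un, uv1, Real.sin_add_pi_div_two]

lemma br_uv_un (t : ℝ) : br (uv t) (un t) = 1 := by
  rw [br, uv0, uv1, un0, un1]; nlinarith [Real.sin_sq_add_cos_sq t]

lemma norm_sq_comb (t α β : ℝ) : ‖α • uv t + β • un t‖ ^ 2 = α ^ 2 + β ^ 2 := by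
  rw [EuclideanSpace.norm_sq_eq, Fin.sum_univ_two]
  simp only [PiLp.add_apply, PiLp.smul_apply, uv0, uv1, un0, un1, smul_eq_mul, Real.norm_eq_abs,
    sq_abs]
  linear_combination (α ^ 2 + β ^ 2) * Real.sin_sq_add_cos_sq t

section
variable {C : Set Plane} {K : ℝ}

/-- `C` has constant width `2`: its difference set is the disk of radius `2`. -/
def Width2 (C : Set Plane) : Prop :=
  (∀ x ∈ C, ∀ y ∈ C, ‖y - x‖ ≤ 2) ∧ ∀ t : ℝ, ∃ A ∈ C, A + (2 : ℝ) • uv t ∈ C

lemma Width2.maxChord (hw : Width2 C) (t : ℝ) : MaxChord C (uv t) := by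
  obtain ⟨A, hA, hB⟩ := hw.2 t
  refine ⟨⟨A, hA, _, hB, by abel⟩, ?_⟩
  intro s hs P hP Q hQ h
  have := hw.1 P hP Q hQ
  rw [h, norm_smul, norm_uv, Real.norm_eq_abs, abs_of_pos (by linarith)] at this
  linarith

/-- In direction `uv t` the critical displacement is `K` times the normal. -/
lemma crit_displacement (hw : Width2 C) (hc : Crit C K) (t : ℝ) :
    ∃ x ∈ C, x + uv t ∈ C ∧ x + K • un t ∈ C ∧ x + K • un t + uv t ∈ C := by
  obtain ⟨x, hx, hxa, y, hy, hya, hbr⟩ := hc.hex _ (hw.maxChord t)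
  set b := y - x with hb
  have key : ∀ s, br (uv s) b ≤ K := by
    intro s
    obtain ⟨A, hA, hB⟩ := hw.2 s
    have := hc.ub2 x hx y hy (uv t) hxa hya A hA _ hB
    rw [← hb, add_sub_cancel_left, br_add_left, hbr, br_smul_left] at this
    linarith
  -- b = ‖b‖ • uv r
  obtain ⟨r, hr⟩ := exists_polar b
  have h1 := key (r - Real.pi / 2)
  rw [hr, br_smul_right, br_uv, show r - (r - Real.pi / 2) = Real.pi / 2 by ring,
    Real.sin_pi_div_two, mul_one] at h1
  have h2 := hbr
  rw [hr, br_smul_right, br_uv] at h2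
  have hbpos : 0 < ‖b‖ := by
    rcases (norm_nonneg b).eq_or_lt with h | h
    · rw [← h, zero_mul] at h2; exact absurd h2 hc.pos.ne
    · exact h
  have hsin : Real.sin (r - t) = 1 := by
    have h3 := Real.sin_le_one (r - t)
    refine le_antisymm h3 ?_
    by_contra hcon
    push Not at hcon
    have : ‖b‖ * Real.sin (r - t) < ‖b‖ * 1 := mul_lt_mul_of_pos_left hcon hbpos
    linarith
  have hnb : ‖b‖ = K := by rw [hsin, mul_one] at h2; exact h2
  have hcos : Real.cos (r - t) = 0 := by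
    have := Real.sin_sq_add_cos_sq (r - t)
    rw [hsin] at this
    have h4 : Real.cos (r - t) ^ 2 = 0 := by linarith
    exact pow_eq_zero_iff (two_ne_zero) |>.1 h4
  have hun : uv r = un t := by
    have e : r = (r - t) + t := by ring
    apply plane_ext
    · rw [uv0, un0, e, Real.cos_add, hsin, hcos]; ring
    · rw [uv1, un1, e, Real.sin_add, hsin, hcos]; ring
  have hbK : b = K • un t := by rw [hr, hnb, hun]
  have hy' : y = x + K • un t := by rw [← hbK, hb]; abel
  exact ⟨x, hx, hxa, by rw [← hy']; exact hy, by rw [← hy']; exact hya⟩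

lemma K_sq_le (hw : Width2 C) (hc : Crit C K) : K ^ 2 ≤ 3 := by
  obtain ⟨x, hx, -, -, h⟩ := crit_displacement hw hc 0
  have := hw.1 x hx _ h
  have e : x + K • un 0 + uv 0 - x = (1 : ℝ) • uv 0 + K • un 0 := by module
  rw [e] at this
  have h2 := norm_sq_comb 0 1 K
  have h3 := norm_nonneg ((1 : ℝ) • uv 0 + K • un 0)
  nlinarith

/-- the critical vertex is never interior, first kind -/
lemma not_interior_x (hw : Width2 C) (hc : Crit C K) (hconv : Convex ℝ C) {t : ℝ} {x : Plane}
    (hx : x ∈ C) (hxa : x + uv t ∈ C) (hy : x + K • un t ∈ C) (hya : x + K • un t + uv t ∈ C) :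
    x ∉ interior C := by
  intro hint
  obtain ⟨x', hx', hxa', ε, hε, he⟩ := move_chord hconv hx hxa (m := 0) (by simpa using hint) (-un t)
  have := hc.ub1 _ (hw.maxChord t) x' hx' hxa' _ hy hya
  rw [br_sub_right, he, br_add_right, br_smul_right, br_neg_right, br_uv_un] at this
  linarith

lemma not_interior_y (hw : Width2 C) (hc : Crit C K) (hconv : Convex ℝ C) {t : ℝ} {x : Plane}
    (hx : x ∈ C) (hxa : x + uv t ∈ C) (hy : x + K • un t ∈ C) (hya : x + K • un t + uv t ∈ C) :
    x + K • un t + uv t ∉ interior C := by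
  intro hint
  obtain ⟨y', hy', hya', ε, hε, he⟩ := move_chord hconv hy hya (m := 1) (by simpa using hint) (un t)
  have := hc.ub1 _ (hw.maxChord t) x hx hxa _ hy' hya'
  rw [br_sub_right, he, br_add_right, br_smul_right, br_uv_un] at this
  linarith

/-- direction of the diagonal -/
noncomputable def dg (K t : ℝ) : Plane := uv t + K • un t

lemma dg_norm_sq (K t : ℝ) : ‖dg K t‖ ^ 2 = 1 + K ^ 2 := by
  have := norm_sq_comb t 1 K
  rw [one_smul] at this
  rw [dg, this]; ring

/-- Configurations: a critical parallelogram with lower vertex `x`, and a longest chord with lower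
end `A` in the direction of its diagonal. -/
def Valid (C : Set Plane) (K t : ℝ) (x A : Plane) : Prop :=
  x ∈ C ∧ x + uv t ∈ C ∧ x + K • un t ∈ C ∧ x + K • un t + uv t ∈ C ∧ A ∈ C ∧
    A + (2 / √(1 + K ^ 2)) • dg K t ∈ C

lemma exists_valid (hw : Width2 C) (hc : Crit C K) (t : ℝ) : ∃ x A, Valid C K t x A := by
  obtain ⟨x, h1, h2, h3, h4⟩ := crit_displacement hw hc t
  obtain ⟨r, hr⟩ := exists_polar (dg K t)
  obtain ⟨A, hA, hB⟩ := hw.2 r
  have hn : ‖dg K t‖ = √(1 + K ^ 2) := by rw [← dg_norm_sq K t, Real.sqrt_sq (norm_nonneg _)]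
  refine ⟨x, A, h1, h2, h3, h4, hA, ?_⟩
  have hs : 0 < √(1 + K ^ 2) := Real.sqrt_pos.2 (by positivity)
  have : (2 / √(1 + K ^ 2)) • dg K t = (2 : ℝ) • uv r := by
    rw [hr, hn, smul_smul]; congr 1; field_simp
  rw [this]; exact hB

/-- If `K² < 3`, the diagonal is never on the same line as the longest chord parallel to it. -/
lemma valid_ne (hw : Width2 C) (hc : Crit C K) (hs : StrictConvex ℝ C) (hK : K ^ 2 < 3) {t : ℝ}
    {x A : Plane} (hv : Valid C K t x A) : br (dg K t) (A - x) ≠ 0 := by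
  intro h0
  obtain ⟨h1, h2, h3, h4, h5, h6⟩ := hv
  set R := √(1 + K ^ 2) with hR
  have hRpos : 0 < R := Real.sqrt_pos.2 (by positivity)
  have hR2 : R < 2 := by
    rw [hR, Real.sqrt_lt' (by norm_num)]; linarith
  have hn : ‖dg K t‖ = R := by rw [hR, ← dg_norm_sq K t, Real.sqrt_sq (norm_nonneg _)]
  have hd0 : dg K t ≠ 0 := by rw [← norm_pos_iff, hn]; exact hRpos
  obtain ⟨s, hs'⟩ := parallel_of_br hd0 (w := x - A) (by
    rw [br_swap, ← neg_sub A x, br_neg_right, h0]; simp)
  -- x = A + s d, top vertex = A + (s+1) d, B = A + (2/R) d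
  have hxA : x = A + s • dg K t := by rw [← hs']; abel
  have htop : x + K • un t + uv t = A + (s + 1) • dg K t := by
    rw [hxA, dg]; module
  have c1 := hw.1 x h1 _ h6
  have e1 : A + (2 / R) • dg K t - x = (2 / R - s) • dg K t := by rw [hxA]; module
  rw [e1, norm_smul, hn, Real.norm_eq_abs] at c1
  have c2 := hw.1 A h5 _ h4
  rw [htop, add_sub_cancel_left, norm_smul, hn, Real.norm_eq_abs] at c2
  have d1 : (2 / R - s) * R ≤ 2 := by
    have := le_abs_self (2 / R - s)
    nlinarith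
  have d2 : (s + 1) * R ≤ 2 := by
    have := le_abs_self (s + 1)
    nlinarith
  have d1' : 2 - s * R ≤ 2 := by
    have : (2 / R - s) * R = 2 - s * R := by field_simp
    rw [this] at d1; exact d1
  have hs0 : 0 ≤ s := by
    by_contra hcon; push Not at hcon; nlinarith
  have hsB : s < 2 / R := by rw [lt_div_iff₀ hRpos]; nlinarith
  have hneAB : A ≠ A + (2 / R) • dg K t := by
    intro h
    have h7 : (2 / R) • dg K t = 0 := by
      have := h.symm
      rwa [add_eq_left] at this
    rcases smul_eq_zero.1 h7 with h8 | h8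
    · have : 0 < 2 / R := by positivity
      linarith
    · exact hd0 h8
  have hin : ∀ r : ℝ, 0 < r → r < 2 / R → A + r • dg K t ∈ interior C := by
    intro r hr0 hr1
    have h2R : 0 < 2 / R := by positivity
    have hp : 0 < 1 - r / (2 / R) := by
      rw [sub_pos, div_lt_one h2R]; exact hr1
    have := hs h5 h6 hneAB (a := 1 - r / (2 / R)) (b := r / (2 / R)) hp (by positivity) (by ring)
    convert this using 1
    have e : r / (2 / R) * (2 / R) = r := by field_simp
    have : (1 - r / (2 / R)) • A + (r / (2 / R)) • (A + (2 / R) • dg K t) =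
        A + (r / (2 / R) * (2 / R)) • dg K t := by module
    rw [this, e]
  rcases hs0.eq_or_lt with h | h
  · have h7 := hin 1 one_pos (by rw [lt_div_iff₀ hRpos]; linarith)
    have h8 : x + K • un t + uv t = A + (1 : ℝ) • dg K t := by rw [htop, ← h]; simp
    rw [← h8] at h7
    exact not_interior_y hw hc hs.convex h1 h2 h3 h4 h7
  · have h7 := hin s h hsB
    rw [← hxA] at h7
    exact not_interior_x hw hc hs.convex h1 h2 h3 h4 h7

lemma continuous_un : Continuous un := continuous_uv.comp (by fun_prop)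
lemma continuous_dg (K : ℝ) : Continuous (dg K) :=
  continuous_uv.add (continuous_un.const_smul K)

lemma uv_add_pi (t : ℝ) : uv (t + Real.pi) = -uv t := by
  apply plane_ext
  · rw [PiLp.neg_apply, uv0, uv0, Real.cos_add_pi]
  · rw [PiLp.neg_apply, uv1, uv1, Real.sin_add_pi]

lemma un_add_pi (t : ℝ) : un (t + Real.pi) = -un t := by
  rw [un, show t + Real.pi + Real.pi / 2 = (t + Real.pi / 2) + Real.pi by ring, uv_add_pi, un]

lemma dg_add_pi (K t : ℝ) : dg K (t + Real.pi) = -dg K t := by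
  rw [dg, uv_add_pi, un_add_pi, dg]; module

/-- the opposite configuration -/
lemma Valid.opp {t : ℝ} {x A : Plane} (hv : Valid C K t x A) :
    Valid C K (t + Real.pi) (x + K • un t + uv t) (A + (2 / √(1 + K ^ 2)) • dg K t) := by
  obtain ⟨h1, h2, h3, h4, h5, h6⟩ := hv
  refine ⟨h4, ?_, ?_, ?_, h6, ?_⟩
  · rw [uv_add_pi]; convert h3 using 1; abel
  · rw [un_add_pi]; convert h2 using 1; module
  · rw [un_add_pi, uv_add_pi]; convert h1 using 1; module
  · rw [dg_add_pi]; convert h5 using 1; module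

lemma K_sq_ge (hw : Width2 C) (hc : Crit C K) (hcomp : IsCompact C) (hs : StrictConvex ℝ C) :
    3 ≤ K ^ 2 := by
  by_contra hK
  push Not at hK
  have : CompactSpace C := isCompact_iff_compactSpace.1 hcomp
  -- the closed sets
  have hclosed : ∀ σ : ℝ, IsClosed {t : ℝ | ∃ x A, Valid C K t x A ∧ 0 ≤ σ * br (dg K t) (A - x)} := by
    intro σ
    set Z : Set (ℝ × (C × C)) := {z | z.2.1.1 + uv z.1 ∈ C} ∩ {z | z.2.1.1 + K • un z.1 ∈ C} ∩
      {z | z.2.1.1 + K • un z.1 + uv z.1 ∈ C} ∩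
      {z | z.2.2.1 + (2 / √(1 + K ^ 2)) • dg K z.1 ∈ C} ∩
      {z | 0 ≤ σ * br (dg K z.1) (z.2.2.1 - z.2.1.1)} with hZ
    have hc1 := continuous_uv
    have hc2 := continuous_un
    have hc3 := continuous_dg K
    have hCc := hcomp.isClosed
    have hZc : IsClosed Z := by
      refine IsClosed.inter (IsClosed.inter (IsClosed.inter (IsClosed.inter ?_ ?_) ?_) ?_) ?_
      · exact hCc.preimage (by fun_prop)
      · exact hCc.preimage (by fun_prop)
      · exact hCc.preimage (by fun_prop)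
      · exact hCc.preimage (by fun_prop)
      · refine isClosed_le continuous_const ?_
        unfold br
        fun_prop
    have himg : {t : ℝ | ∃ x A, Valid C K t x A ∧ 0 ≤ σ * br (dg K t) (A - x)} = Prod.fst '' Z := by
      ext t
      constructor
      · rintro ⟨x, A, ⟨h1, h2, h3, h4, h5, h6⟩, h7⟩
        exact ⟨(t, (⟨x, h1⟩, ⟨A, h5⟩)), ⟨⟨⟨⟨h2, h3⟩, h4⟩, h6⟩, h7⟩, rfl⟩
      · rintro ⟨⟨t', ⟨x, h1⟩, ⟨A, h5⟩⟩, ⟨⟨⟨⟨h2, h3⟩, h4⟩, h6⟩, h7⟩, rfl⟩
        exact ⟨x, A, ⟨h1, h2, h3, h4, h5, h6⟩, h7⟩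
    rw [himg]
    exact isClosedMap_fst_of_compactSpace _ hZc
  set P : Set ℝ := {t : ℝ | ∃ x A, Valid C K t x A ∧ 0 ≤ (1 : ℝ) * br (dg K t) (A - x)} with hP
  set N : Set ℝ := {t : ℝ | ∃ x A, Valid C K t x A ∧ 0 ≤ (-1 : ℝ) * br (dg K t) (A - x)} with hN
  have hPN : ∀ t, t ∈ P ∨ t ∈ N := by
    intro t
    obtain ⟨x, A, hv⟩ := exists_valid hw hc t
    rcases le_total 0 (br (dg K t) (A - x)) with h | h
    · left; exact ⟨x, A, hv, by linarith⟩
    · right; exact ⟨x, A, hv, by linarith⟩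
  have hdisj : ∀ t, ¬ (t ∈ P ∧ t ∈ N) := by
    rintro t ⟨⟨x, A, hv, h⟩, ⟨x', A', hv', h'⟩⟩
    -- convex combination with value zero
    have hne := valid_ne hw hc hs hK hv
    have hne' := valid_ne hw hc hs hK hv'
    rw [one_mul] at h
    set α := br (dg K t) (A - x) with hα
    set β := -br (dg K t) (A' - x') with hβ
    have hαp : 0 < α := lt_of_le_of_ne h (Ne.symm hne)
    have hβp : 0 < β := by
      refine lt_of_le_of_ne (by rw [hβ]; linarith) (Ne.symm ?_)
      rw [hβ]; exact neg_ne_zero.2 hne'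
    have hsum : β / (α + β) + α / (α + β) = 1 := by field_simp; ring
    have hcv := hs.convex
    have comb : ∀ u v : Plane, u ∈ C → v ∈ C → (β / (α + β)) • u + (α / (α + β)) • v ∈ C :=
      fun u v hu hv => hcv hu hv (by positivity) (by positivity) hsum
    have tr : ∀ (u v w : Plane), (β / (α + β)) • (u + w) + (α / (α + β)) • (v + w) =
        (β / (α + β)) • u + (α / (α + β)) • v + w := by
      intro u v w
      have : (β / (α + β)) • (u + w) + (α / (α + β)) • (v + w) =
        (β / (α + β)) • u + (α / (α + β)) • v + (β / (α + β) + α / (α + β)) • w := by module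
      rw [this, hsum, one_smul]
    obtain ⟨g1, g2, g3, g4, g5, g6⟩ := hv
    obtain ⟨k1, k2, k3, k4, k5, k6⟩ := hv'
    have hvv : Valid C K t ((β / (α + β)) • x + (α / (α + β)) • x')
        ((β / (α + β)) • A + (α / (α + β)) • A') := by
      refine ⟨comb _ _ g1 k1, ?_, ?_, ?_, comb _ _ g5 k5, ?_⟩
      · rw [← tr]; exact comb _ _ g2 k2
      · rw [← tr]; exact comb _ _ g3 k3
      · rw [add_assoc, ← tr]; rw [add_assoc] at g4 k4; exact comb _ _ g4 k4
      · rw [← tr]; exact comb _ _ g6 k6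
    refine valid_ne hw hc hs hK hvv ?_
    have e : (β / (α + β)) • A + (α / (α + β)) • A' - ((β / (α + β)) • x + (α / (α + β)) • x') =
        (β / (α + β)) • (A - x) + (α / (α + β)) • (A' - x') := by module
    rw [e, br_add_right, br_smul_right, br_smul_right, ← hα]
    have : br (dg K t) (A' - x') = -β := by rw [hβ]; ring
    rw [this]
    field_simp; ring
  have hcompl : Pᶜ = N := by
    ext t
    constructor
    · intro h; exact (hPN t).resolve_left h
    · intro h h'; exact hdisj t ⟨h', h⟩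
  have hclopen : IsClopen P := ⟨hclosed 1, by rw [← isClosed_compl_iff, hcompl]; exact hclosed (-1)⟩
  have hopp : ∀ t, (t ∈ P → t + Real.pi ∈ N) ∧ (t ∈ N → t + Real.pi ∈ P) := by
    intro t
    have e : ∀ x A : Plane, br (dg K (t + Real.pi)) (A + (2 / √(1 + K ^ 2)) • dg K t -
        (x + K • un t + uv t)) = -br (dg K t) (A - x) := by
      intro x A
      have e1 : A + (2 / √(1 + K ^ 2)) • dg K t - (x + K • un t + uv t) =
        (A - x) + (2 / √(1 + K ^ 2) - 1) • dg K t := by simp only [dg]; module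
      rw [e1, dg_add_pi, br_neg_left, br_add_right, br_smul_right, br_self]; ring
    constructor
    · rintro ⟨x, A, hv, h⟩
      exact ⟨_, _, hv.opp, by rw [e]; linarith⟩
    · rintro ⟨x, A, hv, h⟩
      exact ⟨_, _, hv.opp, by rw [e]; linarith⟩
  rcases isClopen_iff.1 hclopen with h | h
  · rcases hPN 0 with h0 | h0
    · rw [h] at h0; exact h0
    · have := (hopp 0).2 h0
      rw [h] at this; exact this
  · have h0 : (0 : ℝ) ∈ P := by rw [h]; trivial
    have h1 := (hopp 0).1 h0
    have h2 : (0 : ℝ) + Real.pi ∈ P := by rw [h]; trivial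
    exact hdisj _ ⟨h2, h1⟩

end

end H78
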