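import Pool.Agent.H78.ConstWidth

open MeasureTheory Metric Set Filter
open scoped ENNReal Pointwise Topology

namespace H78

section
variable {C : Set Plane} {K : ℝ}

lemma Width2.uniq (hw : Width2 C) (hs : StrictConvex ℝ C) {t : ℝ} {A A' : Plane}
    (hA : A ∈ C) (hB : A + (2 : ℝ) • uv t ∈ C) (hA' : A' ∈ C) (hB' : A' + (2 : ℝ) • uv t ∈ C) :
    A = A' := by
  by_contra hne
  have h1 := hs hA hA' hne (a := 1 / 2) (b := 1 / 2) (by norm_num) (by norm_num) (by norm_num)
  have h2 := hs hB hB' (fun h => hne (add_right_cancel h)) (a := 1 / 2) (b := 1 / 2)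
    (by norm_num) (by norm_num) (by norm_num)
  obtain ⟨ε, hε, -, h3⟩ := exists_eps h2 (uv t)
  have h4 := hw.1 _ (interior_subset h1) _ (h3 ε hε.le le_rfl)
  have e : (1 / 2 : ℝ) • (A + (2 : ℝ) • uv t) + (1 / 2 : ℝ) • (A' + (2 : ℝ) • uv t) + ε • uv t -
      ((1 / 2 : ℝ) • A + (1 / 2 : ℝ) • A') = (2 + ε) • uv t := by module
  rw [e, norm_smul, norm_uv, Real.norm_eq_abs, abs_of_pos (by linarith)] at h4
  linarith

lemma cos_pi_third' : Real.cos (Real.pi / 3) = 1 / 2 := Real.cos_pi_div_three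
lemma sin_pi_third' : Real.sin (Real.pi / 3) = √3 / 2 := Real.sin_pi_div_three

lemma uv_add_third (t : ℝ) : (2 : ℝ) • uv (t + Real.pi / 3) = uv t + √3 • un t := by
  apply plane_ext
  · simp only [PiLp.add_apply, PiLp.smul_apply, uv0, un0, smul_eq_mul, Real.cos_add,
      cos_pi_third', sin_pi_third']
    ring
  · simp only [PiLp.add_apply, PiLp.smul_apply, uv1, un1, smul_eq_mul, Real.sin_add,
      cos_pi_third', sin_pi_third']
    ring

lemma uv_add_two_third (t : ℝ) :
    (2 : ℝ) • uv (t + Real.pi / 3 + Real.pi / 3) = √3 • un t - uv t := by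
  have h3 : √3 * √3 = 3 := Real.mul_self_sqrt (by norm_num)
  apply plane_ext
  · simp only [PiLp.sub_apply, PiLp.smul_apply, uv0, un0, smul_eq_mul, Real.cos_add,
      cos_pi_third', sin_pi_third', Real.sin_add]
    linear_combination (-(Real.cos t) / 2) * h3
  · simp only [PiLp.sub_apply, PiLp.smul_apply, uv1, un1, smul_eq_mul, Real.sin_add,
      cos_pi_third', sin_pi_third', Real.cos_add]
    linear_combination (-(Real.sin t) / 2) * h3

lemma inner_uv (D : Plane) (t : ℝ) : inner ℝ D (uv t) = D 0 * Real.cos t + D 1 * Real.sin t := by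
  rw [PiLp.inner_apply, Fin.sum_univ_two]
  simp [uv0, uv1]; ring

/-- A body of constant width `2` satisfying the critical conditions is a unit disk. -/
theorem ball_of_crit (hw : Width2 C) (hc : Crit C K) (hcomp : IsCompact C) (hs : StrictConvex ℝ C) :
    K = √3 ∧ ∃ c0, C = closedBall c0 1 := by
  have hK2 : K ^ 2 = 3 := le_antisymm (K_sq_le hw hc) (K_sq_ge hw hc hcomp hs)
  have hK : K = √3 := by rw [← hK2, Real.sqrt_sq hc.pos.le]
  refine ⟨hK, ?_⟩
  choose A hA hB using hw.2
  obtain ⟨c, hcdef⟩ : ∃ c : ℝ → Plane, c = fun t => A t + uv t := ⟨_, rfl⟩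
  have hper : ∀ t, c (t + Real.pi / 3) = c (t + Real.pi / 3 + Real.pi / 3) := by
    intro t
    obtain ⟨x, h1, h2, h3, h4⟩ := crit_displacement hw hc t
    rw [hK] at h3 h4
    have e1 : A (t + Real.pi / 3) = x := by
      refine hw.uniq hs (hA _) (hB _) h1 ?_
      rw [uv_add_third]
      convert h4 using 1; abel
    have e2 : A (t + Real.pi / 3 + Real.pi / 3) = x + uv t := by
      refine hw.uniq hs (hA _) (hB _) h2 ?_
      rw [uv_add_two_third]
      convert h3 using 1; abel
    rw [hcdef]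
    simp only
    rw [e1, e2]
    have f1 := uv_add_third t
    have f2 := uv_add_two_third t
    have f3 : (2 : ℝ) • uv (t + Real.pi / 3) = (2 : ℝ) • (uv t + uv (t + Real.pi / 3 + Real.pi / 3)) := by
      rw [smul_add, f2, f1]; module
    have f4 := smul_right_injective Plane (two_ne_zero' ℝ) f3
    rw [f4]; abel
  have hper1 : ∀ t, c (t + Real.pi / 3) = c t := by
    intro t
    have := hper (t - Real.pi / 3)
    rw [sub_add_cancel] at this
    exact this.symm
  -- support inequality
  have hsupp : ∀ t, ∀ z ∈ C, inner ℝ (z - c t) (uv t) ≤ 1 := by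
    intro t z hz
    have h1 := hw.1 (A t) (hA t) z hz
    have h2 := real_inner_le_norm (z - A t) (uv t)
    rw [norm_uv, mul_one] at h2
    have e : z - c t = (z - A t) - uv t := by rw [hcdef]; simp only; abel
    have h3 : inner ℝ (uv t) (uv t) = (1 : ℝ) := by
      rw [real_inner_self_eq_norm_sq, norm_uv]; norm_num
    rw [e, inner_sub_left, h3]
    linarith
  have hBc : ∀ t, c t + uv t ∈ C := by
    intro t
    have := hB t
    rw [hcdef]; simp only
    convert this using 1; module
  have hAc : ∀ t, c t - uv t ∈ C := by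
    intro t
    have := hA t
    rw [hcdef]; simp only
    convert this using 1; module
  have hineq : ∀ s t, (c s 0 - c t 0) * Real.cos t + (c s 1 - c t 1) * Real.sin t ≤
      1 - Real.cos (s - t) := by
    intro s t
    have := hsupp t _ (hBc s)
    have e : c s + uv s - c t = (c s - c t) + uv s := by abel
    rw [e, inner_add_left, inner_uv, inner_uv, uv0, uv1] at this
    rw [Real.cos_sub]
    simp only [PiLp.sub_apply] at this
    linarith
  have hshift : ∀ (k : ℕ) (t : ℝ), c (t + k * (Real.pi / 3)) = c t := by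
    intro k
    induction k with
    | zero => intro t; simp
    | succ k ih =>
      intro t
      have : t + ((k + 1 : ℕ) : ℝ) * (Real.pi / 3) = (t + k * (Real.pi / 3)) + Real.pi / 3 := by
        push_cast; ring
      rw [this, hper1, ih]
  have hbound : ∀ s t, |c s 0 - c t 0| ≤ 3 * (s - t) ^ 2 ∧ |c s 1 - c t 1| ≤ 3 * (s - t) ^ 2 := by
    intro s t
    set η := 1 - Real.cos (s - t) with hη
    have hη0 : 0 ≤ η := by have := Real.cos_le_one (s - t); linarith
    have hη1 : η ≤ (s - t) ^ 2 / 2 := by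
      have := Real.one_sub_sq_div_two_le_cos (x := s - t); linarith
    have hk : ∀ k : ℕ, (c s 0 - c t 0) * Real.cos (t + k * (Real.pi / 3)) +
        (c s 1 - c t 1) * Real.sin (t + k * (Real.pi / 3)) ≤ η := by
      intro k
      have := hineq (s + k * (Real.pi / 3)) (t + k * (Real.pi / 3))
      rw [hshift, hshift, show s + k * (Real.pi / 3) - (t + k * (Real.pi / 3)) = s - t by ring] at this
      exact this
    have k0 := hk 0
    have k1 := hk 1
    have k3 := hk 3
    have k4 := hk 4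
    push_cast at k0 k1 k3 k4
    rw [zero_mul, add_zero] at k0
    rw [one_mul, Real.cos_add, Real.sin_add, cos_pi_third', sin_pi_third'] at k1
    rw [show t + 3 * (Real.pi / 3) = t + Real.pi by ring, Real.cos_add_pi, Real.sin_add_pi] at k3
    rw [show t + 4 * (Real.pi / 3) = (t + Real.pi / 3) + Real.pi by ring, Real.cos_add_pi,
      Real.sin_add_pi, Real.cos_add, Real.sin_add, cos_pi_third', sin_pi_third'] at k4
    set D0 := c s 0 - c t 0 with hD0
    set D1 := c s 1 - c t 1 with hD1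
    set U := D0 * Real.cos t + D1 * Real.sin t with hU
    set W := -D0 * Real.sin t + D1 * Real.cos t with hW
    have hU1 : |U| ≤ η := by rw [abs_le]; constructor <;> linarith
    have h31 : (1 : ℝ) ≤ √3 := by rw [Real.one_le_sqrt]; norm_num
    have h32 : √3 ≤ 2 := by rw [Real.sqrt_le_left (by norm_num)]; norm_num
    have hV : |U / 2 + √3 / 2 * W| ≤ η := by rw [abs_le]; constructor <;> linarith
    have hW1 : |W| ≤ 3 * η := by
      rw [abs_le] at hU1 hV ⊢
      constructor
      · by_contra hcon; push Not at hcon; nlinarith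
      · by_contra hcon; push Not at hcon; nlinarith
    have hsc := Real.sin_sq_add_cos_sq t
    have e0 : D0 = U * Real.cos t - W * Real.sin t := by
      rw [hU, hW]; linear_combination (-D0) * hsc
    have e1 : D1 = U * Real.sin t + W * Real.cos t := by
      rw [hU, hW]; linear_combination (-D1) * hsc
    have c1 := Real.abs_cos_le_one t
    have s1 := Real.abs_sin_le_one t
    have bd : ∀ α β : ℝ, |α| ≤ 1 → |β| ≤ 1 → |U * α| + |W * β| ≤ 4 * η := by
      intro α β hα hβ
      rw [abs_mul, abs_mul]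
      have g1 : |U| * |α| ≤ η * 1 := mul_le_mul hU1 hα (abs_nonneg _) hη0
      have g2 : |W| * |β| ≤ 3 * η * 1 := mul_le_mul hW1 hβ (abs_nonneg _) (by linarith)
      linarith
    constructor
    · rw [e0]
      have := abs_sub (U * Real.cos t) (W * Real.sin t)
      have := bd _ _ c1 s1
      nlinarith [sq_nonneg (s - t)]
    · rw [e1]
      have := abs_add_le (U * Real.sin t) (W * Real.cos t)
      have := bd _ _ s1 c1
      nlinarith [sq_nonneg (s - t)]
  have hc0 : ∀ s t, c s 0 = c t 0 :=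
    const_of_sq (fun t => c t 0) fun t => ⟨3, Filter.Eventually.of_forall fun s => (hbound s t).1⟩
  have hc1 : ∀ s t, c s 1 = c t 1 :=
    const_of_sq (fun t => c t 1) fun t => ⟨3, Filter.Eventually.of_forall fun s => (hbound s t).2⟩
  have hcc : ∀ t, c t = c 0 := fun t => plane_ext (hc0 t 0) (hc1 t 0)
  refine ⟨c 0, ?_⟩
  ext z
  obtain ⟨t, ht⟩ := exists_polar (z - c 0)
  rw [mem_closedBall, dist_eq_norm]
  constructor
  · intro hz
    have := hsupp t z hz
    rw [hcc t] at this
    have e : inner ℝ (z - c 0) (uv t) = ‖z - c 0‖ := by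
      conv_lhs => rw [ht]
      rw [inner_smul_left, real_inner_self_eq_norm_sq, norm_uv]; simp
    rw [e] at this
    exact this
  · intro hz
    have h1 := hBc t
    have h2 := hAc t
    rw [hcc t] at h1 h2
    set r := ‖z - c 0‖ with hr
    have hr0 : 0 ≤ r := norm_nonneg _
    have := hs.convex h1 h2 (a := (1 + r) / 2) (b := (1 - r) / 2) (by linarith) (by linarith) (by ring)
    convert this using 1
    have hz' : z = c 0 + r • uv t := by rw [← ht]; abel
    conv_lhs => rw [hz']
    module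

lemma br_mat2 (α β γ δ : ℝ) (x y : Plane) :
    br (mat2 α β γ δ x) (mat2 α β γ δ y) = (α * δ - β * γ) * br x y := by
  simp only [br, mat2_apply0, mat2_apply1]; ring

/-- transport of the critical conditions by a linear map of positive determinant -/
lemma Crit.image {α β γ δ : ℝ} (hdet : 0 < α * δ - β * γ) (hc : Crit C K) :
    Crit (mat2 α β γ δ '' C) ((α * δ - β * γ) * K) := by
  have hd0 : LinearMap.det (mat2 α β γ δ) ≠ 0 := by rw [det_mat2]; exact hdet.ne'
  set g := (mat2 α β γ δ).equivOfDetNeZero hd0 with hg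
  have hgf : ∀ z, g z = mat2 α β γ δ z := fun z => rfl
  have hinj : Function.Injective (mat2 α β γ δ) := g.injective
  have hmc : ∀ a, MaxChord (mat2 α β γ δ '' C) (mat2 α β γ δ a) → MaxChord C a := by
    rintro a ⟨⟨_, ⟨A, hA, rfl⟩, _, ⟨B, hB, rfl⟩, hAB⟩, hmax⟩
    refine ⟨⟨A, hA, B, hB, ?_⟩, ?_⟩
    · rw [← map_sub, ← map_smul] at hAB
      exact hinj hAB
    · intro t ht P hP Q hQ h
      refine hmax t ht _ ⟨P, hP, rfl⟩ _ ⟨Q, hQ, rfl⟩ ?_
      rw [← map_sub, h, map_smul]
  have hsurj : ∀ a, ∃ a', mat2 α β γ δ a' = a := fun a => ⟨g.symm a, g.apply_symm_apply a⟩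
  have hmem : ∀ {z}, mat2 α β γ δ z ∈ mat2 α β γ δ '' C → z ∈ C := by
    rintro z ⟨w, hw, h⟩
    rwa [← hinj h]
  refine ⟨mul_pos hdet hc.pos, ?_, ?_, ?_⟩
  · intro a ha
    obtain ⟨a, rfl⟩ := hsurj a
    obtain ⟨x, hx, hxa, y, hy, hya, hbr⟩ := hc.hex a (hmc a ha)
    refine ⟨_, ⟨x, hx, rfl⟩, ⟨_, hxa, map_add _ _ _⟩, _, ⟨y, hy, rfl⟩, ⟨_, hya, map_add _ _ _⟩, ?_⟩
    rw [← map_sub, br_mat2, hbr]
  · intro a ha _ hx hxa _ hy hya
    obtain ⟨a, rfl⟩ := hsurj a
    obtain ⟨x, hx, rfl⟩ := hx
    obtain ⟨y, hy, rfl⟩ := hy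
    rw [← map_add] at hxa hya
    rw [← map_sub, br_mat2]
    exact mul_le_mul_of_nonneg_left (hc.ub1 a (hmc a ha) x hx (hmem hxa) y hy (hmem hya)) hdet.le
  · intro _ hx _ hy a hxa hya _ hA _ hB
    obtain ⟨a, rfl⟩ := hsurj a
    obtain ⟨x, hx, rfl⟩ := hx
    obtain ⟨y, hy, rfl⟩ := hy
    obtain ⟨A, hA, rfl⟩ := hA
    obtain ⟨B, hB, rfl⟩ := hB
    rw [← map_add] at hxa hya
    rw [← map_sub, ← map_sub, ← map_add, br_mat2]
    have := hc.ub2 x hx y hy a (hmem hxa) (hmem hya) A hA B hB
    have := mul_le_mul_of_nonneg_left this hdet.le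
    linarith

lemma linear_eq_mat2 (f : Plane →ₗ[ℝ] Plane) : ∃ α β γ δ : ℝ, f = mat2 α β γ δ := by
  set e0 : Plane := EuclideanSpace.single 0 (1 : ℝ) with he0
  set e1 : Plane := EuclideanSpace.single 1 (1 : ℝ) with he1
  refine ⟨f e0 0, f e1 0, f e0 1, f e1 1, ?_⟩
  ext w : 1
  have hw : w = w 0 • e0 + w 1 • e1 := by
    apply plane_ext <;> simp [he0, he1]
  apply plane_ext
  · rw [mat2_apply0]
    conv_lhs => rw [hw]
    rw [map_add, map_smul, map_smul]
    simp; ring
  · rw [mat2_apply1]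
    conv_lhs => rw [hw]
    rw [map_add, map_smul, map_smul]
    simp; ring

/-- Plane convex bodies with elliptic difference body and `θ = (4/3) δ` are ellipses. -/
theorem elliptic_difference_case {C : Set Plane} (hC : IsConvexBody C)
    (L : Plane ≃ₗ[ℝ] Plane) (hL : C - C = L '' closedBall (0 : Plane) 1)
    (heq : coveringDensity C = 4 / 3 * packingDensity C) :
    IsEllipse C ∧ packingDensity C = ENNReal.ofReal (Real.pi / (2 * √3)) ∧
      coveringDensity C = ENNReal.ofReal (2 * Real.pi / (3 * √3)) := by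
  obtain ⟨K, hK, hp, hc, hex, hub1, hub2⟩ := equality_structure hC heq
  have hcrit : Crit C K := ⟨hK, hex, hub1, hub2⟩
  have hstr := strictConvex_of_eq hC heq
  obtain ⟨hcomp, hconv, hint⟩ := hC
  -- normalisation
  obtain ⟨α, β, γ, δ, hdet, hnorm⟩ : ∃ α β γ δ : ℝ, 0 < α * δ - β * γ ∧
      ∀ z, ‖mat2 α β γ δ z‖ = 2 * ‖L.symm z‖ := by
    obtain ⟨α, β, γ, δ, h⟩ := linear_eq_mat2 (L.symm : Plane →ₗ[ℝ] Plane)
    have hz : ∀ z, L.symm z = mat2 α β γ δ z := fun z => by rw [← h]; rfl
    have hdet : α * δ - β * γ ≠ 0 := by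
      rw [← det_mat2, ← h]
      exact (LinearEquiv.isUnit_det' L.symm).ne_zero
    have hn2 : ∀ (s : ℝ), s ^ 2 = 1 → ∀ z, ‖mat2 (2 * α) (2 * β) (s * (2 * γ)) (s * (2 * δ)) z‖ = 2 * ‖L.symm z‖ := by
      intro s hs z
      have h0 : 0 ≤ 2 * ‖L.symm z‖ := by positivity
      rw [← sq_eq_sq₀ (norm_nonneg _) h0, hz, mul_pow, EuclideanSpace.norm_sq_eq,
        EuclideanSpace.norm_sq_eq, Fin.sum_univ_two, Fin.sum_univ_two]
      simp only [Real.norm_eq_abs, sq_abs, mat2_apply0, mat2_apply1]
      linear_combination (4 * (γ * z 0 + δ * z 1) ^ 2) * hs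
    rcases lt_or_gt_of_ne hdet with h0 | h0
    · refine ⟨2 * α, 2 * β, (-1) * (2 * γ), (-1) * (2 * δ), by nlinarith, hn2 (-1) (by norm_num)⟩
    · refine ⟨2 * α, 2 * β, 1 * (2 * γ), 1 * (2 * δ), by nlinarith, hn2 1 (by norm_num)⟩
  set f := mat2 α β γ δ with hf
  set Δ := α * δ - β * γ with hΔ
  have hd0 : LinearMap.det f ≠ 0 := by rw [hf, det_mat2]; exact hdet.ne'
  set g := f.equivOfDetNeZero hd0 with hg
  have hgf : ∀ z, g z = f z := fun z => rfl
  have hw : Width2 (f '' C) := by
    constructor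
    · rintro _ ⟨x, hx, rfl⟩ _ ⟨y, hy, rfl⟩
      rw [← map_sub, hnorm]
      have : y - x ∈ L '' closedBall (0 : Plane) 1 := by rw [← hL]; exact sub_mem_sub hy hx
      obtain ⟨w, hw, hwe⟩ := this
      rw [← hwe, L.symm_apply_apply]
      rw [mem_closedBall_zero_iff] at hw
      linarith
    · intro t
      obtain ⟨z, hz⟩ : ∃ z, f z = (2 : ℝ) • uv t := ⟨g.symm _, g.apply_symm_apply _⟩
      have h1 := hnorm z
      rw [hz, norm_smul, norm_uv] at h1
      have h2 : ‖L.symm z‖ = 1 := by
        simp only [Real.norm_ofNat, mul_one] at h1; linarith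
      have h3 : z ∈ C - C := by
        rw [hL]
        exact ⟨L.symm z, by rw [mem_closedBall_zero_iff, h2], L.apply_symm_apply z⟩
      obtain ⟨B, hB, A, hA, hBA⟩ := mem_sub.1 h3
      refine ⟨f A, ⟨A, hA, rfl⟩, B, hB, ?_⟩
      rw [← hz, ← map_add, ← hBA]; congr 1; abel
  have hcf : Continuous f := f.continuous_of_finiteDimensional
  have hopen : IsOpenMap f := by
    have := g.toContinuousLinearEquiv.toHomeomorph.isOpenMap
    exact this
  have hstr' : StrictConvex ℝ (f '' C) := hstr.linear_image f hopen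
  obtain ⟨hKK, c0, hball⟩ := ball_of_crit hw (hcrit.image hdet) (hcomp.image hcf) hstr'
  rw [← hΔ] at hKK
  have hKval : K = √3 / Δ := by rw [← hKK]; field_simp
  have hmem : ∀ z, z ∈ C ↔ f z ∈ closedBall c0 1 := by
    intro z
    rw [← hball]
    constructor
    · intro hz; exact ⟨z, hz, rfl⟩
    · rintro ⟨w, hw, h⟩
      rwa [← g.injective h]
  have hvol : volume C = ENNReal.ofReal (K * Real.pi / √3) := by
    have hpre : C = f ⁻¹' closedBall c0 1 := by ext z; exact hmem z
    have hb : volume (closedBall c0 1) = ENNReal.ofReal Real.pi := by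
      have h1 := Measure.addHaar_closedBall_center (volume : Measure Plane) c0 1
      rw [h1, vol_ball _ zero_le_one]; simp
    conv_lhs => rw [hpre]
    rw [Measure.addHaar_preimage_linearMap _ hd0, hb, hf, det_mat2, ← hΔ,
      ← ENNReal.ofReal_mul (abs_nonneg _), abs_of_pos (by positivity), hKval]
    congr 1
    have : (0 : ℝ) < √3 := by positivity
    field_simp
  refine ⟨?_, values_of_area hK hvol hp hc⟩
  refine ⟨(AffineEquiv.constVAdd ℝ Plane c0).trans g.symm.toAffineEquiv, ?_⟩
  ext z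
  constructor
  · intro hz
    refine ⟨f z - c0, ?_, ?_⟩
    · have := (hmem z).1 hz
      rw [mem_closedBall, dist_eq_norm] at this
      rw [mem_closedBall_zero_iff]; exact this
    · simp only [AffineEquiv.trans_apply, AffineEquiv.constVAdd_apply, vadd_eq_add,
        LinearEquiv.coe_toAffineEquiv]
      rw [add_sub_cancel, ← hgf, g.symm_apply_apply]
  · rintro ⟨y, hy, rfl⟩
    simp only [AffineEquiv.trans_apply, AffineEquiv.constVAdd_apply, vadd_eq_add,
        LinearEquiv.coe_toAffineEquiv]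
    rw [hmem, ← hgf, g.apply_symm_apply, mem_closedBall, dist_eq_norm, add_sub_cancel_left]
    rwa [mem_closedBall_zero_iff] at hy

end

end H78
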