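import Mathlib

/-!
Packing and covering densities of plane convex bodies, as fixed in problem MP_42fa54_co.
-/

open MeasureTheory Metric Set Filter
open scoped ENNReal

namespace H78

/-- The Euclidean plane. -/
abbrev Plane := EuclideanSpace ℝ (Fin 2)

/-- A plane convex body: compact, convex, nonempty interior. -/
def IsConvexBody (C : Set Plane) : Prop :=
  IsCompact C ∧ Convex ℝ C ∧ (interior C).Nonempty

/-- `A` is a congruent (isometric) copy of `C`. -/
def IsCopy (C A : Set Plane) : Prop := ∃ φ : Plane ≃ᵢ Plane, A = φ '' C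

/-- `(1 / (π r²)) * ∑ area A`, over the members `A` of the arrangement with `A ⊆ r B²`. -/
noncomputable def relDensity (𝒜 : Set (Set Plane)) (r : ℝ) : ℝ≥0∞ :=
  (∑' A : {A : Set Plane // A ∈ 𝒜 ∧ A ⊆ closedBall 0 r}, volume (A : Set Plane)) /
    ENNReal.ofReal (Real.pi * r ^ 2)

/-- Upper density of an arrangement. -/
noncomputable def upperDensity (𝒜 : Set (Set Plane)) : ℝ≥0∞ := limsup (relDensity 𝒜) atTop

/-- Lower density of an arrangement. -/
noncomputable def lowerDensity (𝒜 : Set (Set Plane)) : ℝ≥0∞ := liminf (relDensity 𝒜) atTop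

/-- A packing by congruent copies of `C`: pairwise disjoint interiors. -/
def IsPacking (C : Set Plane) (𝒜 : Set (Set Plane)) : Prop :=
  (∀ A ∈ 𝒜, IsCopy C A) ∧ 𝒜.Pairwise fun A B => Disjoint (interior A) (interior B)

/-- A covering of the plane by congruent copies of `C`. -/
def IsCovering (C : Set Plane) (𝒜 : Set (Set Plane)) : Prop :=
  (∀ A ∈ 𝒜, IsCopy C A) ∧ ⋃₀ 𝒜 = univ

/-- Packing density `δ(C)`: supremum of upper densities of packings. -/
noncomputable def packingDensity (C : Set Plane) : ℝ≥0∞ :=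
  ⨆ 𝒜 : {𝒜 : Set (Set Plane) // IsPacking C 𝒜}, upperDensity 𝒜.1

/-- Covering density `θ(C)`: infimum of lower densities of coverings. -/
noncomputable def coveringDensity (C : Set Plane) : ℝ≥0∞ :=
  ⨅ 𝒜 : {𝒜 : Set (Set Plane) // IsCovering C 𝒜}, lowerDensity 𝒜.1

end H78
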