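import Pool.Agent.H78.LatticeDensity

open MeasureTheory Metric Set Filter
open scoped ENNReal Pointwise

namespace H78

lemma exists_eps {C : Set Plane} {z : Plane} (hz : z ∈ interior C) (d : Plane) :
    ∃ ε : ℝ, 0 < ε ∧ ε ≤ 1 ∧ ∀ t : ℝ, 0 ≤ t → t ≤ ε → z + t • d ∈ C := by
  have hc : ContinuousAt (fun t : ℝ => z + t • d) 0 := by fun_prop
  have h0 : C ∈ nhds (z + (0 : ℝ) • d) := by
    simpa using mem_interior_iff_mem_nhds.1 hz
  have := hc.eventually h0
  rw [Metric.eventually_nhds_iff] at this
  obtain ⟨ε, hε, h⟩ := this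
  refine ⟨min (ε / 2) 1, by positivity, min_le_right _ _, fun t ht ht2 => h ?_⟩
  rw [Real.dist_0_eq_abs, abs_of_nonneg ht]
  have := ht2.trans (min_le_left _ _)
  linarith

/-- If some point `x + m a` (`m` an integer) of the row of `x` is interior, then the chord
`[x, x + a]` can be moved inside `C` so as to change the height in any prescribed direction. -/
lemma move_chord {C : Set Plane} (hconv : Convex ℝ C) {a x : Plane} (hx : x ∈ C) (hxa : x + a ∈ C)
    {m : ℤ} (hm : x + (m : ℝ) • a ∈ interior C) (d : Plane) :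
    ∃ x' ∈ C, x' + a ∈ C ∧ ∃ ε : ℝ, 0 < ε ∧ br a x' = br a x + ε * br a d := by
  rcases le_or_gt m 0 with hm0 | hm1
  · -- x is interior
    have hxi : x ∈ interior C := by
      have hm' : (m : ℝ) ≤ 0 := by exact_mod_cast hm0
      have h := hconv.combo_interior_closure_mem_interior hm (subset_closure hxa)
        (a := 1 / (1 - m)) (b := -m / (1 - m)) (by apply div_pos <;> linarith)
        (by apply div_nonneg <;> linarith)
        (by have h0 : (1 - (m : ℝ)) ≠ 0 := by linarith
            field_simp; ring)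
      convert h using 1
      have : (1 - (m : ℝ)) ≠ 0 := by linarith
      have h2 : (1 / (1 - (m : ℝ))) • (x + (m : ℝ) • a) + (-(m : ℝ) / (1 - m)) • (x + a)
          = ((1 / (1 - (m : ℝ))) + (-(m : ℝ) / (1 - m))) • x +
            ((1 / (1 - (m : ℝ))) * m + (-(m : ℝ) / (1 - m))) • a := by module
      rw [h2]
      have e1 : (1 / (1 - (m : ℝ))) + (-(m : ℝ) / (1 - m)) = 1 := by field_simp; ring
      have e2 : (1 / (1 - (m : ℝ))) * m + (-(m : ℝ) / (1 - m)) = 0 := by field_simp; ring
      rw [e1, e2]; module
    obtain ⟨ε, hε, hε1, h1⟩ := exists_eps hxi d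
    obtain ⟨δ, hδ, hδ1, h2⟩ := exists_eps hxi (-a + ε • d)
    have hw := h1 ε hε.le le_rfl
    refine ⟨x + δ • (-a + ε • d), h2 δ hδ.le le_rfl, ?_, δ * ε, by positivity, ?_⟩
    · have := hconv hxa hw (a := 1 - δ) (b := δ) (by linarith) hδ.le (by ring)
      convert this using 1
      module
    · simp only [br_add_right, br_smul_right, br_neg_right, br_self]; ring
  · have hxi : x + a ∈ interior C := by
      have hm' : (1 : ℝ) ≤ m := by exact_mod_cast hm1
      have h := hconv.combo_interior_closure_mem_interior hm (subset_closure hx)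
        (a := 1 / m) (b := 1 - 1 / m) (by positivity)
        (by rw [sub_nonneg, div_le_one (by linarith)]; exact hm') (by ring)
      convert h using 1
      have : ((m : ℝ)) ≠ 0 := by linarith
      have h2 : (1 / (m : ℝ)) • (x + (m : ℝ) • a) + (1 - 1 / (m : ℝ)) • x
          = x + ((1 / (m : ℝ)) * m) • a := by module
      rw [h2]
      have e1 : (1 / (m : ℝ)) * m = 1 := by field_simp
      rw [e1]; module
    obtain ⟨ε, hε, hε1, h1⟩ := exists_eps hxi d
    obtain ⟨δ, hδ, hδ1, h2⟩ := exists_eps hxi (a + ε • d)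
    have hw := h1 ε hε.le le_rfl
    refine ⟨x + δ • (a + ε • d), ?_, ?_, δ * ε, by positivity, ?_⟩
    · have := hconv hx hw (a := 1 - δ) (b := δ) (by linarith) hδ.le (by ring)
      convert this using 1
      module
    · have := h2 δ hδ.le le_rfl
      convert this using 1
      module
    · simp only [br_add_right, br_smul_right, br_self]; ring

section
variable {C : Set Plane} {a x y A B : Plane}

/-- the isometry with index `s` -/
noncomputable def phi (u v w : Plane) (s : Bool × (ℤ × ℤ)) : Plane ≃ᵢ Plane :=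
  if s.1 then IsometryEquiv.subLeft (lat u v s.2 + w) else IsometryEquiv.addLeft (lat u v s.2)

/-- The two bodies `C` and `w - C`. -/
noncomputable def two (C : Set Plane) (w : Plane) (i : Bool) : Set Plane :=
  if i then (fun p => w - p) '' C else C

lemma arr_phi (C : Set Plane) (u v w : Plane) (s : Bool × (ℤ × ℤ)) :
    (fun p => lat u v s.2 + p) '' (two C w s.1) = phi u v w s '' C := by
  rcases s with ⟨i, t⟩
  cases i
  · simp [two, phi]
  · simp only [two, phi, if_true, image_image]
    congr 1
    ext p : 1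
    simp [add_sub_assoc]

lemma volume_two (C : Set Plane) (w : Plane) (i : Bool) : volume (two C w i) = volume C := by
  cases i
  · simp [two]
  · simp only [two, if_true]
    have h := (IsometryEquiv.subLeft w : Plane ≃ᵢ Plane)
    have : (fun p => w - p) '' C = (fun p => w + p) '' ((fun p : Plane => -p) '' C) := by
      rw [image_image]; simp [sub_eq_add_neg]
    rw [this, volume_tr, Set.image_neg_eq_neg, Measure.measure_neg]

lemma two_bdd (C : Set Plane) (hC : IsCompact C) (w : Plane) :
    ∃ ρ : ℝ, ∀ i, two C w i ⊆ closedBall 0 ρ := by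
  obtain ⟨R, hR⟩ := hC.isBounded.subset_closedBall 0
  refine ⟨‖w‖ + R, fun i => ?_⟩
  have hR' : ∀ p ∈ C, ‖p‖ ≤ R := fun p hp => by simpa using hR hp
  cases i
  · intro p hp
    have := hR' p (by simpa [two] using hp)
    rw [mem_closedBall_zero_iff]
    linarith [norm_nonneg w]
  · rintro _ ⟨p, hp, rfl⟩
    rw [mem_closedBall_zero_iff]
    have := norm_sub_le w p
    linarith [hR' p hp]

theorem packing_ge (hC : IsConvexBody C) (hA : A ∈ C) (hB : B ∈ C) (hAB : B - A = (2 : ℝ) • a)
    (hmax : ∀ t : ℝ, 1 < t → ∀ P ∈ C, ∀ Q ∈ C, Q - P ≠ (2 * t) • a)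
    (hx : x ∈ C) (hxa : x + a ∈ C) (hy : y ∈ C) (hya : y + a ∈ C)
    (hopt : ∀ x' ∈ C, x' + a ∈ C → ∀ y' ∈ C, y' + a ∈ C → br a (y' - x') ≤ br a (y - x))
    (hK : 0 < br a (y - x)) :
    volume C / ENNReal.ofReal (2 * br a (y - x)) ≤ packingDensity C := by
  obtain ⟨hcomp, hconv, hint⟩ := hC
  set K := br a (y - x) with hKdef
  have hKx : br a y = br a x + K := by rw [hKdef, br_sub_right]; ring
  -- heights
  have hmid : ∀ z ∈ C, (1 / 2 : ℝ) • z + (1 / 2 : ℝ) • A ∈ C ∧
      ((1 / 2 : ℝ) • z + (1 / 2 : ℝ) • A) + a ∈ C := by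
    intro z hz
    refine ⟨hconv hz hA (by norm_num) (by norm_num) (by norm_num), ?_⟩
    have := hconv hz hB (a := 1 / 2) (b := 1 / 2) (by norm_num) (by norm_num) (by norm_num)
    convert this using 1
    have hB' : B = A + (2 : ℝ) • a := by rw [← hAB]; abel
    rw [hB']; module
  have hH1 : ∀ z ∈ C, br a z + br a A ≤ 2 * br a y := by
    intro z hz
    obtain ⟨h1, h2⟩ := hmid z hz
    have := hopt x hx hxa _ h1 h2
    rw [br_sub_right, br_add_right, br_smul_right, br_smul_right] at this
    linarith
  have hH2 : ∀ z ∈ C, 2 * br a x ≤ br a z + br a A := by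
    intro z hz
    obtain ⟨h1, h2⟩ := hmid z hz
    have := hopt _ h1 h2 y hy hya
    rw [br_sub_right, br_add_right, br_smul_right, br_smul_right] at this
    linarith
  have hH1' : ∀ z ∈ interior C, br a z + br a A < 2 * br a y := by
    intro z hz
    obtain ⟨ε, hε, -, h⟩ := exists_eps hz (y - x)
    have := hH1 _ (h ε hε.le le_rfl)
    rw [br_add_right, br_smul_right, ← hKdef] at this
    nlinarith
  have hH2' : ∀ z ∈ interior C, 2 * br a x < br a z + br a A := by
    intro z hz
    obtain ⟨ε, hε, -, h⟩ := exists_eps hz (-(y - x))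
    have := hH2 _ (h ε hε.le le_rfl)
    rw [br_add_right, br_smul_right, br_neg_right, ← hKdef] at this
    nlinarith
  have hAx := hH2 A hA
  have hAy := hH1 A hA
  -- reflection centres are not interior
  have hcent : ∀ m n : ℤ, x + (m : ℝ) • a + (n : ℝ) • (y - x) ∉ interior C := by
    intro m n hmn
    have e1 : br a (x + (m : ℝ) • a + (n : ℝ) • (y - x)) = br a x + n * K := by
      simp only [br_add_right, br_smul_right, br_self, hKdef]; ring
    have g1 := hH1' _ hmn
    have g2 := hH2' _ hmn
    rw [e1] at g1 g2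
    have hn1 : n < 2 := by
      by_contra hcon
      have : (2 : ℝ) ≤ n := by exact_mod_cast not_lt.1 hcon
      nlinarith
    have hn2 : -1 < n := by
      by_contra hcon
      have : (n : ℝ) ≤ -1 := by exact_mod_cast not_lt.1 hcon
      nlinarith
    have hn : n = 0 ∨ n = 1 := by omega
    rcases hn with rfl | rfl
    · have hmem : x + (m : ℝ) • a ∈ interior C := by simpa using hmn
      obtain ⟨x', hx', hxa', ε, hε, he⟩ := move_chord hconv hx hxa hmem (-(y - x))
      have := hopt x' hx' hxa' y hy hya
      rw [br_sub_right, he, br_neg_right, ← hKdef] at this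
      nlinarith
    · have hmem : y + (m : ℝ) • a ∈ interior C := by
        convert hmn using 1
        push_cast; module
      obtain ⟨x', hx', hxa', ε, hε, he⟩ := move_chord hconv hy hya hmem (y - x)
      have := hopt x hx hxa x' hx' hxa'
      rw [br_sub_right, he, ← hKdef] at this
      nlinarith
  -- translations
  have htrans : ∀ m n : ℤ, (m, n) ≠ (0, 0) → ∀ p ∈ interior C, ∀ q ∈ interior C,
      p - q ≠ (2 : ℝ) • ((m : ℝ) • a + (n : ℝ) • (y - x)) := by
    intro m n hmn p hp q hq heq
    have e1 : br a p - br a q = 2 * (n * K) := by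
      rw [← br_sub_right, heq]
      simp only [br_add_right, br_smul_right, br_self, hKdef]; ring
    have g1 := hH1' _ hp
    have g2 := hH2' _ hp
    have g3 := hH1' _ hq
    have g4 := hH2' _ hq
    have hn : n = 0 := by
      by_contra hn0
      rcases lt_or_gt_of_ne hn0 with h | h
      · have : (n : ℝ) ≤ -1 := by exact_mod_cast Int.le_sub_one_of_lt h
        nlinarith
      · have : (1 : ℝ) ≤ n := by exact_mod_cast h
        nlinarith
    subst hn
    have hm0 : m ≠ 0 := fun h => hmn (by rw [h])
    have heq' : p - q = (2 * (m : ℝ)) • a := by rw [heq]; push_cast; module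
    rcases lt_or_gt_of_ne hm0 with h | h
    · have hm1 : (m : ℝ) ≤ -1 := by exact_mod_cast Int.le_sub_one_of_lt h
      obtain ⟨ε, hε, -, hh⟩ := exists_eps hq a
      refine hmax (-m + ε / 2) (by linarith) p (interior_subset hp) _ (hh ε hε.le le_rfl) ?_
      have : q = p - (2 * (m : ℝ)) • a := by rw [← heq']; abel
      rw [this]; module
    · have hm1 : (1 : ℝ) ≤ m := by exact_mod_cast h
      obtain ⟨ε, hε, -, hh⟩ := exists_eps hp a
      refine hmax (m + ε / 2) (by linarith) q (interior_subset hq) _ (hh ε hε.le le_rfl) ?_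
      have : p = q + (2 * (m : ℝ)) • a := by rw [← heq']; abel
      rw [this]; module
  -- the arrangement
  set u : Plane := (2 : ℝ) • a
  set v : Plane := (2 : ℝ) • (y - x)
  set w : Plane := (2 : ℝ) • x
  have hD : br u v = 4 * K := by simp only [u, v, br_smul_left, br_smul_right, hKdef]; ring
  have hDpos : 0 < br u v := by rw [hD]; linarith
  have hlat : ∀ t : ℤ × ℤ, lat u v t = (2 : ℝ) • ((t.1 : ℝ) • a + (t.2 : ℝ) • (y - x)) := by
    intro t; simp only [lat, u, v]; module
  have hdis : ∀ s t : Bool × (ℤ × ℤ), s ≠ t →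
      Disjoint (interior (phi u v w s '' C)) (interior (phi u v w t '' C)) := by
    intro s t hst
    have hi : ∀ e : Plane ≃ᵢ Plane, interior (e '' C) = e '' interior C := by
      intro e
      exact (e.toHomeomorph.image_interior C).symm
    rw [hi, hi, Set.disjoint_left]
    rintro z ⟨p, hp, hpz⟩ ⟨q, hq, hqz⟩
    have hsub : ∀ t s : ℤ × ℤ, lat u v t - lat u v s =
        (2 : ℝ) • (((t.1 - s.1 : ℤ) : ℝ) • a + ((t.2 - s.2 : ℤ) : ℝ) • (y - x)) := by
      intro t s; rw [hlat, hlat]; push_cast; module
    have hne0 : ∀ t s : ℤ × ℤ, t ≠ s → ((t.1 - s.1 : ℤ), (t.2 - s.2 : ℤ)) ≠ (0, 0) := by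
      intro t s hne h
      rw [Prod.mk.injEq, sub_eq_zero, sub_eq_zero] at h
      exact hne (Prod.ext h.1 h.2)
    -- mixed case helper
    have hmix : ∀ (s t : ℤ × ℤ) (p q : Plane), p ∈ interior C → q ∈ interior C →
        lat u v s + p = lat u v t + w - q → False := by
      intro s t p q hp hq h
      have hmidp : (1 / 2 : ℝ) • p + (1 / 2 : ℝ) • q ∈ interior C :=
        hconv.interior hp hq (by norm_num) (by norm_num) (by norm_num)
      refine hcent (t.1 - s.1) (t.2 - s.2) ?_
      convert hmidp using 1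
      have h3 : p = lat u v t - lat u v s + w - q := by
        have : p = (lat u v s + p) - lat u v s := by abel
        rw [this, h]; abel
      rw [h3, hsub]
      simp only [w]; push_cast; module
    rcases s with ⟨i, s⟩
    rcases t with ⟨j, t⟩
    cases i <;> cases j
    · simp only [phi, Bool.false_eq_true, if_false, IsometryEquiv.addLeft_apply] at hpz hqz
      have hne : t ≠ s := fun h => hst (by rw [h])
      refine htrans _ _ (hne0 t s hne) p hp q hq ?_
      rw [← hsub]
      have : p = z - lat u v s := by rw [← hpz]; abel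
      rw [this, ← hqz]; abel
    · simp only [phi, Bool.false_eq_true, if_false, if_true, IsometryEquiv.addLeft_apply, IsometryEquiv.subLeft_apply] at hpz hqz
      exact hmix s t p q hp hq (by rw [hpz, hqz])
    · simp only [phi, Bool.false_eq_true, if_false, if_true, IsometryEquiv.addLeft_apply, IsometryEquiv.subLeft_apply] at hpz hqz
      exact hmix t s q p hq hp (by rw [hpz, hqz])
    · simp only [phi, if_true, IsometryEquiv.subLeft_apply] at hpz hqz
      have hne : s ≠ t := fun h => hst (by rw [h])
      refine htrans _ _ (hne0 s t hne) p hp q hq ?_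
      rw [← hsub]
      have : p = lat u v s + w - z := by rw [← hpz]; abel
      rw [this, ← hqz]; abel
  have hinj : Function.Injective fun s : Bool × (ℤ × ℤ) =>
      (fun p => lat u v s.2 + p) '' (two C w s.1) := by
    intro s t hst
    by_contra hne
    have hd := hdis s t hne
    rw [← arr_phi, ← arr_phi] at hd
    have hst' : (fun p => lat u v s.2 + p) '' (two C w s.1) =
      (fun p => lat u v t.2 + p) '' (two C w t.1) := hst
    rw [← hst', disjoint_self] at hd
    rw [arr_phi] at hd
    have hi : interior (phi u v w s '' C) = phi u v w s '' interior C :=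
      ((phi u v w s).toHomeomorph.image_interior C).symm
    rw [hi] at hd
    exact (hint.image _).ne_empty hd
  obtain ⟨ρ, hρ⟩ := two_bdd C hcomp w
  have hge := upperDensity_ge (two C w) hDpos (volume_two C w) hρ hinj
  have hpack : IsPacking C (arr (two C w) u v) := by
    constructor
    · rintro _ ⟨s, rfl⟩
      exact ⟨phi u v w s, arr_phi C u v w s⟩
    · rintro _ ⟨s, rfl⟩ _ ⟨t, rfl⟩ hne
      have hst : s ≠ t := fun h => hne (by rw [h])
      have := hdis s t hst
      rw [← arr_phi, ← arr_phi] at this
      exact this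
  refine le_trans ?_ (le_iSup (fun 𝒜 : {𝒜 : Set (Set Plane) // IsPacking C 𝒜} => upperDensity 𝒜.1)
    ⟨_, hpack⟩)
  refine le_trans (le_of_eq ?_) hge
  rw [hD, Fintype.card_bool]
  have h4 : ENNReal.ofReal (4 * K) = 2 * ENNReal.ofReal (2 * K) := by
    rw [show (4 * K) = 2 * (2 * K) by ring, ENNReal.ofReal_mul (by norm_num)]
    simp
  rw [h4]
  push_cast
  rw [ENNReal.mul_div_mul_left _ _ (by norm_num) (by norm_num)]

end

end H78
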