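import Pool.Agent.H78.HexCover

open MeasureTheory Metric Set Filter
open scoped ENNReal Pointwise

namespace H78

/-- `2a` is a longest chord of `C` in its direction. -/
def MaxChord (C : Set Plane) (a : Plane) : Prop :=
  (∃ A ∈ C, ∃ B ∈ C, B - A = (2 : ℝ) • a) ∧
    ∀ t : ℝ, 1 < t → ∀ P ∈ C, ∀ Q ∈ C, Q - P ≠ (2 * t) • a

lemma continuous_br_sub (a : Plane) : Continuous fun z : Plane × Plane => br a (z.2 - z.1) := by
  unfold br; fun_prop

lemma MaxChord.exists_opt {C : Set Plane} (hC : IsConvexBody C) {a : Plane} (ha : MaxChord C a) :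
    ∃ x ∈ C, x + a ∈ C ∧ ∃ y ∈ C, y + a ∈ C ∧
      (∀ x' ∈ C, x' + a ∈ C → ∀ y' ∈ C, y' + a ∈ C → br a (y' - x') ≤ br a (y - x)) ∧
      0 < br a (y - x) := by
  obtain ⟨hcomp, hconv, hint⟩ := hC
  obtain ⟨⟨A, hA, B, hB, hAB⟩, hmax⟩ := ha
  have ha0 : a ≠ 0 := by
    rintro rfl
    exact hmax 2 (by norm_num) A hA A hA (by simp)
  set S : Set Plane := C ∩ (fun p => p + a) ⁻¹' C with hS
  have hScomp : IsCompact S :=
    hcomp.inter_right (hcomp.isClosed.preimage (by fun_prop))
  have hmid : ∀ z ∈ C, (1 / 2 : ℝ) • z + (1 / 2 : ℝ) • A ∈ S := by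
    intro z hz
    refine ⟨hconv hz hA (by norm_num) (by norm_num) (by norm_num), ?_⟩
    have := hconv hz hB (a := 1 / 2) (b := 1 / 2) (by norm_num) (by norm_num) (by norm_num)
    rw [mem_preimage]
    convert this using 1
    have hB' : B = A + (2 : ℝ) • a := by rw [← hAB]; abel
    rw [hB']; module
  have hSne : S.Nonempty := ⟨_, hmid A hA⟩
  obtain ⟨⟨x, y⟩, ⟨hx, hy⟩, hopt⟩ :=
    (hScomp.prod hScomp).exists_isMaxOn (hSne.prod hSne) (continuous_br_sub a).continuousOn
  have hopt' : ∀ x' ∈ C, x' + a ∈ C → ∀ y' ∈ C, y' + a ∈ C → br a (y' - x') ≤ br a (y - x) := by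
    intro x' h1 h2 y' h3 h4
    exact hopt (show (x', y') ∈ S ×ˢ S from ⟨⟨h1, h2⟩, ⟨h3, h4⟩⟩)
  refine ⟨x, hx.1, hx.2, y, hy.1, hy.2, hopt', ?_⟩
  -- positivity
  obtain ⟨z, hz⟩ := hint
  obtain ⟨d, hd⟩ : ∃ d : Plane, 0 < br a d := by
    by_cases h0 : a 0 = 0
    · have h1 : a 1 ≠ 0 := fun h1 => ha0 (plane_ext (by simpa using h0) (by simpa using h1))
      refine ⟨WithLp.toLp 2 ![-(a 1), 0], ?_⟩
      simp only [br, h0]; simp
      positivity
    · refine ⟨WithLp.toLp 2 ![0, a 0], ?_⟩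
      simp only [br]; simp
      positivity
  obtain ⟨ε, hε, -, h⟩ := exists_eps hz d
  have h1 := hmid _ (h ε hε.le le_rfl)
  have h2 := hmid z (interior_subset hz)
  have := hopt' _ h2.1 h2.2 _ h1.1 h1.2
  have e : br a ((1 / 2 : ℝ) • (z + ε • d) + (1 / 2 : ℝ) • A - ((1 / 2 : ℝ) • z + (1 / 2 : ℝ) • A))
      = ε / 2 * br a d := by
    simp only [br_sub_right, br_add_right, br_smul_right]; ring
  rw [e] at this
  have : 0 < ε / 2 * br a d := by positivity
  linarith

/-- In every direction there is a longest chord. -/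
lemma exists_maxChord {C : Set Plane} (hC : IsConvexBody C) {d : Plane} (hd : d ≠ 0) :
    ∃ s : ℝ, 0 < s ∧ MaxChord C (s • d) := by
  obtain ⟨hcomp, hconv, hint⟩ := hC
  -- the set of admissible (P, Q)
  set T : Set (Plane × Plane) := (C ×ˢ C) ∩ {z | br (z.2 - z.1) d = 0} with hT
  have hTcomp : IsCompact T := by
    refine (hcomp.prod hcomp).inter_right (isClosed_eq ?_ continuous_const)
    unfold br; fun_prop
  obtain ⟨z, hz⟩ := hint
  have hzC := interior_subset hz
  have hTne : T.Nonempty := ⟨(z, z), ⟨⟨hzC, hzC⟩, by simp [br]⟩⟩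
  have hcont : Continuous fun w : Plane × Plane => inner ℝ d (w.2 - w.1) := by fun_prop
  obtain ⟨⟨P, Q⟩, ⟨⟨hP, hQ⟩, hPQ⟩, hopt⟩ := hTcomp.exists_isMaxOn hTne hcont.continuousOn
  obtain ⟨s, hs⟩ := parallel_of_br hd hPQ
  simp only at hs
  have hopt' : ∀ P' ∈ C, ∀ Q' ∈ C, ∀ r : ℝ, Q' - P' = r • d → r ≤ s := by
    intro P' hP' Q' hQ' r hr
    have := hopt (show (P', Q') ∈ T from ⟨⟨hP', hQ'⟩, by
      show br (Q' - P') d = 0
      rw [hr, br_smul_left, br_self, mul_zero]⟩)
    simp only [Set.mem_ofPred_eq] at this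
    rw [hr, hs, inner_smul_right, inner_smul_right] at this
    have hpos : 0 < inner ℝ d d := real_inner_self_pos.2 hd
    exact le_of_mul_le_mul_right this hpos
  have hspos : 0 < s := by
    obtain ⟨ε, hε, -, h⟩ := exists_eps hz d
    exact hε.trans_le (hopt' z hzC _ (h ε hε.le le_rfl) ε (by simp))
  refine ⟨s / 2, by positivity, ⟨P, hP, Q, hQ, by rw [hs]; module⟩, ?_⟩
  intro t ht P' hP' Q' hQ' heq
  have := hopt' P' hP' Q' hQ' (t * s) (by rw [heq]; module)
  nlinarith

theorem equality_structure {C : Set Plane} (hC : IsConvexBody C)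
    (heq : coveringDensity C = 4 / 3 * packingDensity C) :
    ∃ K : ℝ, 0 < K ∧
      packingDensity C = volume C / ENNReal.ofReal (2 * K) ∧
      coveringDensity C = 2 * volume C / ENNReal.ofReal (3 * K) ∧
      (∀ a, MaxChord C a → ∃ x ∈ C, x + a ∈ C ∧ ∃ y ∈ C, y + a ∈ C ∧ br a (y - x) = K) ∧
      (∀ a, MaxChord C a → ∀ x ∈ C, x + a ∈ C → ∀ y ∈ C, y + a ∈ C → br a (y - x) ≤ K) ∧
      (∀ x ∈ C, ∀ y ∈ C, ∀ a, x + a ∈ C → y + a ∈ C → ∀ A ∈ C, ∀ B ∈ C,
        br (a + (B - A)) (y - x) ≤ 3 * K) := by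
  have hvpos : 0 < volume C := by
    obtain ⟨z, hz⟩ := hC.2.2
    exact lt_of_lt_of_le (isOpen_interior.measure_pos _ ⟨z, hz⟩) (measure_mono interior_subset)
  have hvtop : volume C ≠ ⊤ := hC.1.measure_lt_top.ne
  -- for each optimal configuration, the value of `K` is determined
  have key : ∀ a, MaxChord C a → ∃ x ∈ C, x + a ∈ C ∧ ∃ y ∈ C, y + a ∈ C ∧
      (∀ x' ∈ C, x' + a ∈ C → ∀ y' ∈ C, y' + a ∈ C → br a (y' - x') ≤ br a (y - x)) ∧
      0 < br a (y - x) ∧ packingDensity C = volume C / ENNReal.ofReal (2 * br a (y - x)) ∧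
      coveringDensity C = 2 * volume C / ENNReal.ofReal (3 * br a (y - x)) := by
    intro a ha
    obtain ⟨x, hx, hxa, y, hy, hya, hopt, hpos⟩ := ha.exists_opt hC
    obtain ⟨⟨A, hA, B, hB, hAB⟩, hmax⟩ := ha
    have hp := packing_ge hC hA hB hAB hmax hx hxa hy hya hopt hpos
    have hD : br (a + (B - A)) (y - x) = 3 * br a (y - x) := by
      rw [hAB, br_add_left, br_smul_left]; ring
    have hc := covering_le hC hx hxa hy hya hA hB (by rw [hD]; positivity)
    rw [hD] at hc
    have h43 : 2 * volume C / ENNReal.ofReal (3 * br a (y - x)) =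
        4 / 3 * (volume C / ENNReal.ofReal (2 * br a (y - x))) := by
      rw [ENNReal.ofReal_mul (by norm_num), ENNReal.ofReal_mul (by norm_num)]
      have h0 : ENNReal.ofReal (br a (y - x)) ≠ 0 := by simpa using hpos
      have h1 : ENNReal.ofReal (br a (y - x)) ≠ ⊤ := ENNReal.ofReal_ne_top
      rw [ENNReal.ofReal_ofNat, ENNReal.ofReal_ofNat]
      rw [← ENNReal.toReal_eq_toReal_iff']
      · simp only [ENNReal.toReal_div, ENNReal.toReal_mul, ENNReal.toReal_ofNat]
        have : (ENNReal.ofReal (br a (y - x))).toReal ≠ 0 := by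
          rw [ENNReal.toReal_ofReal hpos.le]; exact hpos.ne'
        field_simp
        ring
      · exact ENNReal.div_ne_top (ENNReal.mul_ne_top (by norm_num) hvtop) (mul_ne_zero (by norm_num) h0)
      · refine ENNReal.mul_ne_top (ENNReal.div_ne_top (by norm_num) (by norm_num)) ?_
        exact ENNReal.div_ne_top hvtop (mul_ne_zero (by norm_num) h0)
    refine ⟨x, hx, hxa, y, hy, hya, hopt, hpos, ?_, ?_⟩
    · refine le_antisymm ?_ hp
      rw [h43, heq] at hc
      have h0 : (4 / 3 : ℝ≥0∞) ≠ 0 := by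
        rw [Ne, ENNReal.div_eq_zero_iff]; norm_num
      have h1 : (4 / 3 : ℝ≥0∞) ≠ ⊤ := ENNReal.div_ne_top (by norm_num) (by norm_num)
      exact (ENNReal.mul_le_mul_iff_right h0 h1).1 hc
    · refine le_antisymm hc ?_
      rw [h43, heq]
      gcongr
  obtain ⟨s, hs, hs2⟩ := exists_maxChord hC (d := WithLp.toLp 2 ![(1:ℝ), 0]) (by
    intro h
    have := congrArg (fun v : Plane => v 0) h
    simp at this)
  obtain ⟨x, hx, hxa, y, hy, hya, hopt, hpos, hp, hc⟩ := key _ hs2
  set K := br (s • (WithLp.toLp 2 ![(1:ℝ), 0] : Plane)) (y - x) with hK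
  -- uniqueness of the constant
  have huniq : ∀ K' : ℝ, 0 < K' → packingDensity C = volume C / ENNReal.ofReal (2 * K') → K' = K := by
    intro K' hK' h
    rw [hp] at h
    have := congrArg ENNReal.toReal h
    rw [ENNReal.toReal_div, ENNReal.toReal_div, ENNReal.toReal_ofReal (by positivity),
      ENNReal.toReal_ofReal (by positivity)] at this
    have hv : 0 < (volume C).toReal := ENNReal.toReal_pos hvpos.ne' hvtop
    have h2 : (volume C).toReal * (2 * K') = (volume C).toReal * (2 * K) := by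
      rw [div_eq_div_iff (by positivity) (by positivity)] at this
      exact this
    have h3 := mul_left_cancel₀ hv.ne' h2
    linarith
  refine ⟨K, hpos, hp, hc, ?_, ?_, ?_⟩
  · intro a ha
    obtain ⟨x, hx, hxa, y, hy, hya, hopt, hpos, hp', hc⟩ := key a ha
    exact ⟨x, hx, hxa, y, hy, hya, huniq _ hpos hp'⟩
  · intro a ha x' hx' hxa' y' hy' hya'
    obtain ⟨x, hx, hxa, y, hy, hya, hopt, hpos, hp', hc⟩ := key a ha
    rw [← huniq _ hpos hp']
    exact hopt x' hx' hxa' y' hy' hya'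
  · intro x' hx' y' hy' a' hxa' hya' A' hA' B' hB'
    by_contra hcon
    push Not at hcon
    have hpos' : 0 < br (a' + (B' - A')) (y' - x') := by nlinarith
    have h := covering_le hC hx' hxa' hy' hya' hA' hB' hpos'
    rw [hc] at h
    have h2 := ENNReal.toReal_mono (ENNReal.div_ne_top (ENNReal.mul_ne_top (by norm_num) hvtop)
      (by simpa using hpos')) h
    rw [ENNReal.toReal_div, ENNReal.toReal_div, ENNReal.toReal_ofReal (by positivity),
      ENNReal.toReal_ofReal (by positivity)] at h2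
    have hv : 0 < (2 * volume C).toReal := by
      rw [ENNReal.toReal_mul]
      have := ENNReal.toReal_pos hvpos.ne' hvtop
      simpa using this
    rw [div_le_div_iff₀ (by positivity) hpos'] at h2
    have := le_of_mul_le_mul_left h2 hv
    linarith

end H78
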