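import Pool.Agent.H78.DoubleLattice

open MeasureTheory Metric Set Filter
open scoped ENNReal Pointwise

namespace H78

lemma conv3 {C : Set Plane} (hC : Convex ℝ C) {P Q R : Plane} (hP : P ∈ C) (hQ : Q ∈ C) (hR : R ∈ C)
    {a b c : ℝ} (ha : 0 ≤ a) (hb : 0 ≤ b) (hc : 0 ≤ c) (h : a + b + c = 1) :
    a • P + b • Q + c • R ∈ C := by
  have := hC.sum_mem (t := (Finset.univ : Finset (Fin 3))) (w := ![a, b, c]) (z := ![P, Q, R])
    (by intro i _; fin_cases i <;> simpa) (by simp [Fin.sum_univ_three, h])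
    (by intro i _; fin_cases i <;> simpa)
  simpa [Fin.sum_univ_three] using this

/-- a vector with zero bracket against `b ≠ 0` is a multiple of `b`. -/
lemma parallel_of_br {b w : Plane} (hb : b ≠ 0) (h : br w b = 0) : ∃ s : ℝ, w = s • b := by
  have hb' : b 0 ≠ 0 ∨ b 1 ≠ 0 := by
    by_contra hcon
    push Not at hcon
    exact hb (plane_ext (by simpa using hcon.1) (by simpa using hcon.2))
  simp only [br] at h
  rcases hb' with h0 | h1
  · refine ⟨w 0 / b 0, plane_ext ?_ ?_⟩
    · simp only [PiLp.smul_apply, smul_eq_mul]; field_simp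
    · simp only [PiLp.smul_apply, smul_eq_mul]; field_simp; linarith
  · refine ⟨w 1 / b 1, plane_ext ?_ ?_⟩
    · simp only [PiLp.smul_apply, smul_eq_mul]; field_simp; linarith
    · simp only [PiLp.smul_apply, smul_eq_mul]; field_simp

lemma strip {b P Q z : Plane} (hb : b ≠ 0) (h1 : br P b ≤ br z b) (h2 : br z b ≤ br Q b) :
    ∃ (n : ℤ) (l s : ℝ), 0 ≤ l ∧ l ≤ 1 ∧ 0 ≤ s ∧ s ≤ 1 ∧
      z - (n : ℝ) • b = (1 - l) • P + l • Q + s • b := by
  obtain ⟨l, hl0, hl1, hl⟩ : ∃ l : ℝ, 0 ≤ l ∧ l ≤ 1 ∧ br z b = (1 - l) * br P b + l * br Q b := by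
    rcases eq_or_lt_of_le (h1.trans h2) with h | h
    · exact ⟨0, le_rfl, zero_le_one, by linarith⟩
    · refine ⟨(br z b - br P b) / (br Q b - br P b), div_nonneg (by linarith) (by linarith), ?_, ?_⟩
      · rw [div_le_one (by linarith)]; linarith
      · have : br Q b - br P b ≠ 0 := by linarith
        field_simp; ring
  obtain ⟨s', hs'⟩ := parallel_of_br hb (w := z - ((1 - l) • P + l • Q)) (by
    simp only [br_sub_left, br_add_left, br_smul_left]; linarith)
  refine ⟨⌊s'⌋, l, s' - ⌊s'⌋, hl0, hl1, by linarith [Int.floor_le s'],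
    by linarith [Int.lt_floor_add_one s'], ?_⟩
  have hz : z = (1 - l) • P + l • Q + s' • b := by rw [← hs']; abel
  rw [hz]; module

theorem covering_le {C : Set Plane} (hC : IsConvexBody C) {x y a A B : Plane}
    (hx : x ∈ C) (hxa : x + a ∈ C) (hy : y ∈ C) (hya : y + a ∈ C) (hA : A ∈ C) (hB : B ∈ C)
    (hD : 0 < br (a + (B - A)) (y - x)) :
    coveringDensity C ≤ 2 * volume C / ENNReal.ofReal (br (a + (B - A)) (y - x)) := by
  obtain ⟨hcomp, hconv, hint⟩ := hC
  set b := y - x with hb
  have hyx : y = x + b := by rw [hb]; abel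
  set u := a + (B - A) with hu
  set w := y + a + B with hw
  have hb0 : b ≠ 0 := by
    intro h; rw [h, br_zero_right] at hD; exact lt_irrefl _ hD
  have hcop : ∀ p, p ∈ C → ∀ t : ℤ × ℤ, lat u b t + p ∈ ⋃₀ arr (two C w) u b := by
    intro p hp t
    exact ⟨_, ⟨(false, t), rfl⟩, ⟨p, by simpa [two] using hp, rfl⟩⟩
  have hcop' : ∀ p, p ∈ C → ∀ t : ℤ × ℤ, lat u b t + (w - p) ∈ ⋃₀ arr (two C w) u b := by
    intro p hp t
    exact ⟨_, ⟨(true, t), rfl⟩, ⟨w - p, by simp only [two, if_true]; exact ⟨p, hp, rfl⟩, rfl⟩⟩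
  have hRconv : Convex ℝ ((fun p => w - p) '' C) := by
    rintro _ ⟨p, hp, rfl⟩ _ ⟨q, hq, rfl⟩ α β hα hβ hαβ
    refine ⟨α • p + β • q, hconv hp hq hα hβ hαβ, ?_⟩
    have : w = α • w + β • w := by rw [← add_smul, hαβ, one_smul]
    simp only
    conv_lhs => rw [this]
    module
  set R := (fun p => w - p) '' C with hR
  have hR1 : B ∈ R := ⟨y + a, hya, by simp only [hw]; abel⟩
  have hR2 : B + b ∈ R := ⟨x + a, hxa, by simp only [hw, hyx]; abel⟩
  have hR3 : B + a ∈ R := ⟨y, hy, by simp only [hw]; abel⟩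
  have hR4 : B + a + b ∈ R := ⟨x, hx, by simp only [hw, hyx]; abel⟩
  have hR5 : x + a ∈ C := hxa
  have hR6 : x + a + b ∈ R := ⟨B, hB, by simp only [hw, hyx]; abel⟩
  have hR7 : x + u + b ∈ R := ⟨A, hA, by simp only [hw, hyx, hu]; abel⟩
  have hcov : ∀ z : Plane, z ∈ ⋃₀ arr (two C w) u b := by
    intro z
    -- reduce modulo u
    set D := br u b with hDdef
    set m : ℤ := ⌊br (z - x) b / D⌋ with hm
    have hm1 : (m : ℝ) * D ≤ br (z - x) b := by
      have := Int.floor_le (br (z - x) b / D)
      rwa [le_div_iff₀ hD] at this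
    have hm2 : br (z - x) b < (m + 1 : ℝ) * D := by
      have := Int.lt_floor_add_one (br (z - x) b / D)
      rwa [div_lt_iff₀ hD] at this
    set z1 := z - (m : ℝ) • u with hz1
    have f1 : br x b ≤ br z1 b := by
      rw [hz1, br_sub_left, br_smul_left]; rw [br_sub_left] at hm1; linarith
    have f2 : br z1 b ≤ br (x + u) b := by
      have e2 : br (x + u) b = br x b + D := by rw [br_add_left]
      rw [hz1, br_sub_left, br_smul_left, e2]; rw [br_sub_left] at hm2; linarith
    -- finishing tools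
    have fin1 : ∀ (n : ℤ) (p : Plane), p ∈ C → z1 - (n : ℝ) • b = p → z ∈ ⋃₀ arr (two C w) u b := by
      intro n p hp he
      have := hcop p hp (m, n)
      have hz : z = lat u b (m, n) + p := by rw [← he, hz1]; simp only [lat]; abel
      rw [hz]; exact this
    have fin1' : ∀ (n : ℤ) (p : Plane), p ∈ C → z1 - (n : ℝ) • b = p + u → z ∈ ⋃₀ arr (two C w) u b := by
      intro n p hp he
      have := hcop p hp (m + 1, n)
      have hz : z = lat u b (m + 1, n) + p := by
        have : p = (z1 - (n : ℝ) • b) - u := by rw [he]; abel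
        rw [this, hz1]; simp only [lat]; push_cast; module
      rw [hz]; exact this
    have fin2 : ∀ (n : ℤ) (p : Plane), p ∈ R → z1 - (n : ℝ) • b = p → z ∈ ⋃₀ arr (two C w) u b := by
      rintro n _ ⟨p, hp, rfl⟩ he
      have := hcop' p hp (m, n)
      have hz : z = lat u b (m, n) + (w - p) := by
        have he' : w - p = z1 - (n : ℝ) • b := he.symm
        rw [he', hz1]; simp only [lat]; abel
      rw [hz]; exact this
    rcases le_or_gt (br z1 b) (br (x + a) b) with c1 | c1
    · -- strip 1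
      obtain ⟨n, l, s, hl0, hl1, hs0, hs1, he⟩ := strip hb0 f1 c1
      refine fin1 n _ ?_ he
      have q1 : (1 - l) • x + l • (x + a) ∈ C := hconv hx hxa (by linarith) hl0 (by ring)
      have q2 : (1 - l) • y + l • (y + a) ∈ C := hconv hy hya (by linarith) hl0 (by ring)
      have := hconv q1 q2 (a := 1 - s) (b := s) (by linarith) hs0 (by ring)
      convert this using 1
      rw [hyx]; module
    rcases le_or_gt (br z1 b) (br B b) with c2 | c2
    · -- strip 2
      obtain ⟨n, l, s, hl0, hl1, hs0, hs1, he⟩ := strip hb0 c1.le c2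
      rcases le_or_gt s (1 - l) with c | c
      · refine fin1 n _ ?_ he
        have := conv3 hconv hxa hya hB (a := 1 - l - s) (b := s) (c := l) (by linarith) hs0 hl0 (by ring)
        convert this using 1
        rw [hyx]; module
      · refine fin2 n _ ?_ he
        have := conv3 hRconv hR6 hR1 hR2 (a := 1 - l) (b := 1 - s) (c := s - (1 - l)) (by linarith)
          (by linarith) (by linarith) (by ring)
        convert this using 1
        module
    rcases le_or_gt (br z1 b) (br (B + a) b) with c3 | c3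
    · -- strip 3
      obtain ⟨n, l, s, hl0, hl1, hs0, hs1, he⟩ := strip hb0 c2.le c3
      refine fin2 n _ ?_ he
      have q1 : (1 - l) • B + l • (B + a) ∈ R := hRconv hR1 hR3 (by linarith) hl0 (by ring)
      have q2 : (1 - l) • (B + b) + l • (B + a + b) ∈ R := hRconv hR2 hR4 (by linarith) hl0 (by ring)
      have := hRconv q1 q2 (a := 1 - s) (b := s) (by linarith) hs0 (by ring)
      convert this using 1
      module
    · -- strip 4
      obtain ⟨n, l, s, hl0, hl1, hs0, hs1, he⟩ := strip hb0 c3.le f2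
      rcases le_or_gt l s with c | c
      · refine fin2 n _ ?_ he
        have := conv3 hRconv hR3 hR4 hR7 (a := 1 - s) (b := s - l) (c := l) (by linarith)
          (by linarith) hl0 (by ring)
        convert this using 1
        module
      · have := conv3 hconv hA hx hy (a := 1 - l) (b := l - s) (c := s) (by linarith)
          (by linarith) hs0 (by ring)
        refine fin1' n _ this ?_
        rw [he, hyx, hu]; module
  obtain ⟨ρ, hρ⟩ := two_bdd C hcomp w
  have hne : ∀ i, (two C w i).Nonempty := by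
    intro i
    cases i
    · exact ⟨x, by simpa [two] using hx⟩
    · exact ⟨w - x, by simp only [two, if_true]; exact ⟨x, hx, rfl⟩⟩
  have hle := lowerDensity_le (two C w) hD (volume_two C w) hρ hne
  have hcv : IsCovering C (arr (two C w) u b) := by
    constructor
    · rintro _ ⟨s, rfl⟩
      exact ⟨phi u b w s, arr_phi C u b w s⟩
    · exact eq_univ_of_forall hcov
  refine le_trans (iInf_le (fun 𝒜 : {𝒜 : Set (Set Plane) // IsCovering C 𝒜} => lowerDensity 𝒜.1)
    ⟨_, hcv⟩) ?_
  refine le_trans hle (le_of_eq ?_)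
  rw [Fintype.card_bool]
  norm_num

end H78
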