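import Pool.Agent.H78.PlaneBasic

open MeasureTheory Metric Set Filter
open scoped ENNReal Pointwise

namespace H78

/-- lattice point -/
noncomputable def lat (u v : Plane) (t : ℤ × ℤ) : Plane := (t.1 : ℝ) • u + (t.2 : ℝ) • v

lemma volume_box (m n : ℤ) : volume {x : Plane | ⌊x 0⌋ = m ∧ ⌊x 1⌋ = n} = 1 := by
  have hmp := EuclideanSpace.volume_preserving_symm_measurableEquiv_toLp (Fin 2)
  have hset : {x : Plane | ⌊x 0⌋ = m ∧ ⌊x 1⌋ = n} =
      (MeasurableEquiv.toLp 2 (Fin 2 → ℝ)).symm ⁻¹'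
        (Set.pi univ fun i => Ico ((![(m:ℝ), (n:ℝ)]) i) ((![(m:ℝ), (n:ℝ)]) i + 1)) := by
    ext x
    simp only [Set.mem_ofPred_eq, mem_preimage, Set.mem_pi, mem_univ, true_implies, Fin.forall_fin_two,
      Int.floor_eq_iff, mem_Ico]
    simp
  rw [hset, hmp.measure_preimage]
  · rw [Real.volume_pi_Ico]
    simp
  · exact (MeasurableSet.univ_pi fun i => measurableSet_Ico).nullMeasurableSet

/-- the fundamental cell with index `t` -/
def cell (u v : Plane) (t : ℤ × ℤ) : Set Plane :=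
  {p | ⌊br p v / br u v⌋ = t.1 ∧ ⌊br u p / br u v⌋ = t.2}

lemma cell_eq_preimage (u v : Plane) (t : ℤ × ℤ) :
    cell u v t = (mat2 (v 1 / br u v) (-(v 0) / br u v) (-(u 1) / br u v) (u 0 / br u v)) ⁻¹'
      {x : Plane | ⌊x 0⌋ = t.1 ∧ ⌊x 1⌋ = t.2} := by
  ext p
  simp only [cell, Set.mem_ofPred_eq, mem_preimage, mat2_apply0, mat2_apply1]
  have h0 : v 1 / br u v * p 0 + -(v 0) / br u v * p 1 = br p v / br u v := by
    simp only [br]; ring
  have h1 : -(u 1) / br u v * p 0 + (u 0) / br u v * p 1 = br u p / br u v := by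
    simp only [br]; ring
  rw [h0, h1]

lemma volume_cell {u v : Plane} (hD : 0 < br u v) (t : ℤ × ℤ) :
    volume (cell u v t) = ENNReal.ofReal (br u v) := by
  have hdet : LinearMap.det (mat2 (v 1 / br u v) (-(v 0) / br u v) (-(u 1) / br u v) (u 0 / br u v))
      = (br u v)⁻¹ := by
    rw [det_mat2]
    have : br u v ≠ 0 := hD.ne'
    field_simp
    simp only [br]; ring
  rw [cell_eq_preimage, Measure.addHaar_preimage_linearMap, volume_box, hdet, inv_inv, mul_one,
    abs_of_pos hD]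
  rw [hdet]; exact inv_ne_zero hD.ne'

lemma measurableSet_cell (u v : Plane) (t : ℤ × ℤ) : MeasurableSet (cell u v t) := by
  have h1 : Measurable fun p : Plane => ⌊br p v / br u v⌋ :=
    Int.measurable_floor.comp ((continuous_br_left v).div_const _).measurable
  have h2 : Measurable fun p : Plane => ⌊br u p / br u v⌋ :=
    Int.measurable_floor.comp ((continuous_br_right u).div_const _).measurable
  exact (h1 (measurableSet_singleton t.1)).inter (h2 (measurableSet_singleton t.2))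

lemma mem_cell_dist {u v : Plane} (hD : 0 < br u v) {t : ℤ × ℤ} {p : Plane} (hp : p ∈ cell u v t) :
    ‖p - lat u v t‖ ≤ ‖u‖ + ‖v‖ := by
  obtain ⟨h1, h2⟩ := hp
  have hc := coords hD.ne' p
  have h1' : (t.1 : ℝ) ≤ br p v / br u v ∧ br p v / br u v < t.1 + 1 := by
    rw [← Int.floor_eq_iff]; exact h1
  have h2' : (t.2 : ℝ) ≤ br u p / br u v ∧ br u p / br u v < t.2 + 1 := by
    rw [← Int.floor_eq_iff]; exact h2
  have : p - lat u v t = (br p v / br u v - t.1) • u + (br u p / br u v - t.2) • v := by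
    conv_lhs => rw [hc]
    simp only [lat]; module
  rw [this]
  calc ‖(br p v / br u v - t.1) • u + (br u p / br u v - t.2) • v‖
      ≤ ‖(br p v / br u v - t.1) • u‖ + ‖(br u p / br u v - t.2) • v‖ := norm_add_le _ _
    _ ≤ 1 * ‖u‖ + 1 * ‖v‖ := by
        rw [norm_smul, norm_smul]
        gcongr
        · rw [Real.norm_eq_abs, abs_le]; constructor <;> linarith
        · rw [Real.norm_eq_abs, abs_le]; constructor <;> linarith
    _ = ‖u‖ + ‖v‖ := by ring

lemma pairwise_disjoint_cell (u v : Plane) : Pairwise (Function.onFun Disjoint (cell u v)) := by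
  intro s t hst
  rw [Function.onFun, Set.disjoint_left]
  rintro p ⟨h1, h2⟩ ⟨h3, h4⟩
  exact hst (Prod.ext (h1.symm.trans h3) (h2.symm.trans h4))

/-- number of lattice points of norm at most `R` -/
noncomputable def cnt (u v : Plane) (R : ℝ) : ℝ≥0∞ := ∑' _x : {t : ℤ × ℤ // ‖lat u v t‖ ≤ R}, 1

lemma cnt_lower {u v : Plane} (hD : 0 < br u v) (R : ℝ) :
    volume (closedBall (0 : Plane) (R - (‖u‖ + ‖v‖))) ≤ cnt u v R * ENNReal.ofReal (br u v) := by
  have hsub : closedBall (0 : Plane) (R - (‖u‖ + ‖v‖)) ⊆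
      ⋃ x : {t : ℤ × ℤ // ‖lat u v t‖ ≤ R}, cell u v x.1 := by
    intro p hp
    rw [mem_closedBall_zero_iff] at hp
    let t : ℤ × ℤ := (⌊br p v / br u v⌋, ⌊br u p / br u v⌋)
    have hpt : p ∈ cell u v t := ⟨rfl, rfl⟩
    have hd := mem_cell_dist hD hpt
    have : ‖lat u v t‖ ≤ R := by
      calc ‖lat u v t‖ = ‖p - (p - lat u v t)‖ := by congr 1; abel
        _ ≤ ‖p‖ + ‖p - lat u v t‖ := norm_sub_le _ _
        _ ≤ R := by linarith
    exact mem_iUnion.2 ⟨⟨t, this⟩, hpt⟩
  calc volume (closedBall (0 : Plane) (R - (‖u‖ + ‖v‖)))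
      ≤ volume (⋃ x : {t : ℤ × ℤ // ‖lat u v t‖ ≤ R}, cell u v x.1) := measure_mono hsub
    _ ≤ ∑' x : {t : ℤ × ℤ // ‖lat u v t‖ ≤ R}, volume (cell u v x.1) := measure_iUnion_le _
    _ = ∑' _x : {t : ℤ × ℤ // ‖lat u v t‖ ≤ R}, 1 * ENNReal.ofReal (br u v) := by
        simp_rw [volume_cell hD, one_mul]
    _ = cnt u v R * ENNReal.ofReal (br u v) := by rw [ENNReal.tsum_mul_right]; rfl

lemma cnt_upper {u v : Plane} (hD : 0 < br u v) (R : ℝ) :
    cnt u v R * ENNReal.ofReal (br u v) ≤ volume (closedBall (0 : Plane) (R + (‖u‖ + ‖v‖))) := by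
  calc cnt u v R * ENNReal.ofReal (br u v)
      = ∑' _x : {t : ℤ × ℤ // ‖lat u v t‖ ≤ R}, 1 * ENNReal.ofReal (br u v) := by
        rw [ENNReal.tsum_mul_right]; rfl
    _ = ∑' x : {t : ℤ × ℤ // ‖lat u v t‖ ≤ R}, volume (cell u v x.1) := by
        simp_rw [volume_cell hD, one_mul]
    _ = volume (⋃ x : {t : ℤ × ℤ // ‖lat u v t‖ ≤ R}, cell u v x.1) := by
        rw [measure_iUnion]
        · intro s t hst
          exact pairwise_disjoint_cell u v (fun h => hst (Subtype.ext h))
        · intro s; exact measurableSet_cell _ _ _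
    _ ≤ volume (closedBall (0 : Plane) (R + (‖u‖ + ‖v‖))) := by
        apply measure_mono
        intro p hp
        obtain ⟨x, hx⟩ := mem_iUnion.1 hp
        rw [mem_closedBall_zero_iff]
        have hd := mem_cell_dist hD hx
        calc ‖p‖ = ‖lat u v x.1 + (p - lat u v x.1)‖ := by congr 1; abel
          _ ≤ ‖lat u v x.1‖ + ‖p - lat u v x.1‖ := norm_add_le _ _
          _ ≤ _ := by linarith [x.2]

/-- the periodic arrangement generated by the sets `A i` and the lattice `ℤu + ℤv` -/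
def arr {ι : Type} (A : ι → Set Plane) (u v : Plane) : Set (Set Plane) :=
  range fun s : ι × (ℤ × ℤ) => (fun p => lat u v s.2 + p) '' A s.1

lemma volume_tr (q : Plane) (A : Set Plane) : volume ((fun p => q + p) '' A) = volume A := by
  rw [Set.image_add_left]; exact measure_preimage_add _ _ _

lemma vol_ball (r : ℝ) (hr : 0 ≤ r) :
    volume (closedBall (0 : Plane) r) = ENNReal.ofReal (Real.pi * r ^ 2) := by
  rw [EuclideanSpace.volume_closedBall_fin_two, mul_comm Real.pi, ENNReal.ofReal_mul (by positivity),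
    ENNReal.ofReal_pow hr]

lemma tendsto_ratio (c : ℝ) :
    Tendsto (fun r : ℝ => ENNReal.ofReal (Real.pi * (r + c) ^ 2) / ENNReal.ofReal (Real.pi * r ^ 2))
      atTop (nhds 1) := by
  have h1 : Tendsto (fun r : ℝ => ((1 : ℝ) + c * r⁻¹) ^ 2) atTop (nhds ((1 + c * 0) ^ 2)) :=
    ((tendsto_inv_atTop_zero.const_mul c).const_add 1).pow 2
  have h2 : Tendsto (fun r : ℝ => ENNReal.ofReal (((1 : ℝ) + c * r⁻¹) ^ 2)) atTop (nhds 1) := by
    have := (ENNReal.continuous_ofReal.tendsto _).comp h1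
    simpa [Function.comp_def] using this
  refine h2.congr' ?_
  filter_upwards [eventually_gt_atTop 0] with r hr
  rw [← ENNReal.ofReal_div_of_pos (by positivity)]
  congr 1
  have := Real.pi_ne_zero
  field_simp

lemma upperDensity_ge {ι : Type} [Fintype ι] (A : ι → Set Plane) {u v : Plane} (hD : 0 < br u v)
    {V : ℝ≥0∞} (hV : ∀ i, volume (A i) = V) {ρ : ℝ} (hb : ∀ i, A i ⊆ closedBall 0 ρ)
    (hinj : Function.Injective fun s : ι × (ℤ × ℤ) => (fun p => lat u v s.2 + p) '' A s.1) :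
    Fintype.card ι * V / ENNReal.ofReal (br u v) ≤ upperDensity (arr A u v) := by
  set c : ℝ := ρ + (‖u‖ + ‖v‖)
  have hDtop : ENNReal.ofReal (br u v) ≠ ⊤ := ENNReal.ofReal_ne_top
  have hD0 : ENNReal.ofReal (br u v) ≠ 0 := by simpa using hD
  -- main estimate
  have key : ∀ r : ℝ, c ≤ r → 
      Fintype.card ι * V / ENNReal.ofReal (br u v) *
        (ENNReal.ofReal (Real.pi * (r + -c) ^ 2) / ENNReal.ofReal (Real.pi * r ^ 2)) ≤
      relDensity (arr A u v) r := by
    intro r hr
    have hsum : (Fintype.card ι : ℝ≥0∞) * (cnt u v (r - ρ) * V) ≤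
        ∑' S : {S : Set Plane // S ∈ arr A u v ∧ S ⊆ closedBall 0 r}, volume (S : Set Plane) := by
      let f : ι × {t : ℤ × ℤ // ‖lat u v t‖ ≤ r - ρ} →
          {S : Set Plane // S ∈ arr A u v ∧ S ⊆ closedBall 0 r} := fun s =>
        ⟨(fun p => lat u v s.2.1 + p) '' A s.1, ⟨(s.1, s.2.1), rfl⟩, by
          rintro _ ⟨p, hp, rfl⟩
          have := hb _ hp
          rw [mem_closedBall_zero_iff] at this ⊢
          calc ‖lat u v s.2.1 + p‖ ≤ ‖lat u v s.2.1‖ + ‖p‖ := norm_add_le _ _
            _ ≤ r := by linarith [s.2.2]⟩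
      have hf : Function.Injective f := by
        rintro ⟨i, s⟩ ⟨j, t⟩ h
        have h' := hinj (a₁ := (i, s.1)) (a₂ := (j, t.1)) (congrArg Subtype.val h)
        simp only [Prod.mk.injEq] at h'
        exact Prod.ext h'.1 (Subtype.ext h'.2)
      have h1 := ENNReal.tsum_comp_le_tsum_of_injective hf (fun S => volume (S : Set Plane))
      refine le_trans (le_of_eq ?_) h1
      have h2 : ∀ x, volume ((f x : Set Plane)) = V := by
        intro x; simp only [f]; rw [volume_tr, hV]
      simp_rw [h2]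
      rw [ENNReal.tsum_prod (f := fun (_ : ι) (_ : {t : ℤ × ℤ // ‖lat u v t‖ ≤ r - ρ}) => V)]
      simp only [tsum_fintype, Finset.sum_const, Finset.card_univ, nsmul_eq_mul]
      congr 1
      rw [cnt, ← ENNReal.tsum_mul_right]
      simp
    have hcnt := cnt_lower hD (r - ρ)
    have hball : volume (closedBall (0 : Plane) (r - ρ - (‖u‖ + ‖v‖))) =
        ENNReal.ofReal (Real.pi * (r + -c) ^ 2) := by
      have : r - ρ - (‖u‖ + ‖v‖) = r + -c := by simp only [c]; ring
      rw [this, vol_ball]; linarith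
    rw [hball] at hcnt
    rw [relDensity, ← mul_div_assoc]
    refine ENNReal.div_le_div_right ?_ _
    refine le_trans ?_ hsum
    calc (Fintype.card ι : ℝ≥0∞) * V / ENNReal.ofReal (br u v) * ENNReal.ofReal (Real.pi * (r + -c) ^ 2)
        ≤ Fintype.card ι * V / ENNReal.ofReal (br u v) * (cnt u v (r - ρ) * ENNReal.ofReal (br u v)) := by
          gcongr
      _ = Fintype.card ι * V * (cnt u v (r - ρ)) * ((ENNReal.ofReal (br u v))⁻¹ * ENNReal.ofReal (br u v)) := by
          rw [div_eq_mul_inv]; ring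
      _ = Fintype.card ι * (cnt u v (r - ρ) * V) := by
          rw [ENNReal.inv_mul_cancel hD0 hDtop]; ring
  have hlim : Tendsto (fun r : ℝ => Fintype.card ι * V / ENNReal.ofReal (br u v) *
        (ENNReal.ofReal (Real.pi * (r + -c) ^ 2) / ENNReal.ofReal (Real.pi * r ^ 2))) atTop
        (nhds (Fintype.card ι * V / ENNReal.ofReal (br u v) * 1)) :=
    ENNReal.Tendsto.const_mul (tendsto_ratio (-c)) (Or.inl one_ne_zero)
  rw [mul_one] at hlim
  rw [← hlim.limsup_eq, upperDensity]
  exact limsup_le_limsup ((eventually_ge_atTop c).mono key)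

lemma lowerDensity_le {ι : Type} [Fintype ι] (A : ι → Set Plane) {u v : Plane} (hD : 0 < br u v)
    {V : ℝ≥0∞} (hV : ∀ i, volume (A i) = V) {ρ : ℝ} (hb : ∀ i, A i ⊆ closedBall 0 ρ)
    (hne : ∀ i, (A i).Nonempty) :
    lowerDensity (arr A u v) ≤ Fintype.card ι * V / ENNReal.ofReal (br u v) := by
  set c : ℝ := ρ + (‖u‖ + ‖v‖)
  have hDtop : ENNReal.ofReal (br u v) ≠ ⊤ := ENNReal.ofReal_ne_top
  have hD0 : ENNReal.ofReal (br u v) ≠ 0 := by simpa using hD
  have key : ∀ r : ℝ, 0 ≤ r + c → relDensity (arr A u v) r ≤ 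
      Fintype.card ι * V / ENNReal.ofReal (br u v) *
        (ENNReal.ofReal (Real.pi * (r + c) ^ 2) / ENNReal.ofReal (Real.pi * r ^ 2)) := by
    intro r hr
    have hsum : 
        ∑' S : {S : Set Plane // S ∈ arr A u v ∧ S ⊆ closedBall 0 r}, volume (S : Set Plane) ≤ 
        (Fintype.card ι : ℝ≥0∞) * (cnt u v (r + ρ) * V) := by
      have hex : ∀ S : {S : Set Plane // S ∈ arr A u v ∧ S ⊆ closedBall 0 r},
          ∃ s : ι × (ℤ × ℤ), (fun p => lat u v s.2 + p) '' A s.1 = S.1 := fun S => S.2.1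
      choose idx hidx using hex
      let g : {S : Set Plane // S ∈ arr A u v ∧ S ⊆ closedBall 0 r} →
          ι × {t : ℤ × ℤ // ‖lat u v t‖ ≤ r + ρ} := fun S =>
        ((idx S).1, ⟨(idx S).2, by
          obtain ⟨p, hp⟩ := hne (idx S).1
          have h3 : lat u v (idx S).2 + p ∈ S.1 := by
            rw [← hidx S]; exact ⟨p, hp, rfl⟩
          have h4 := S.2.2 h3
          have h5 := hb _ hp
          rw [mem_closedBall_zero_iff] at h4 h5
          calc ‖lat u v (idx S).2‖ = ‖(lat u v (idx S).2 + p) - p‖ := by congr 1; abel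
            _ ≤ _ := norm_sub_le _ _
            _ ≤ r + ρ := by linarith⟩)
      have hg : Function.Injective g := by
        intro S T h
        have h1 : idx S = idx T := by
          have h1 := congrArg Prod.fst h
          have h2 := congrArg (fun x => (Prod.snd x).1) h
          exact Prod.ext h1 h2
        apply Subtype.ext
        rw [← hidx S, ← hidx T, h1]
      have h2 : ∀ S : {S : Set Plane // S ∈ arr A u v ∧ S ⊆ closedBall 0 r},
          volume (S : Set Plane) = (fun _ : ι × {t : ℤ × ℤ // ‖lat u v t‖ ≤ r + ρ} => V) (g S) := by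
        intro S
        rw [← hidx S, volume_tr, hV]
      have h1 := ENNReal.tsum_comp_le_tsum_of_injective hg (fun _ => V)
      simp_rw [h2]
      refine le_trans h1 (le_of_eq ?_)
      rw [ENNReal.tsum_prod (f := fun (_ : ι) (_ : {t : ℤ × ℤ // ‖lat u v t‖ ≤ r + ρ}) => V)]
      simp only [tsum_fintype, Finset.sum_const, Finset.card_univ, nsmul_eq_mul]
      congr 1
      rw [cnt, ← ENNReal.tsum_mul_right]
      simp
    have hcnt := cnt_upper hD (r + ρ)
    have hball : volume (closedBall (0 : Plane) (r + ρ + (‖u‖ + ‖v‖))) =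
        ENNReal.ofReal (Real.pi * (r + c) ^ 2) := by
      have : r + ρ + (‖u‖ + ‖v‖) = r + c := by simp only [c]; ring
      rw [this, vol_ball]; linarith
    rw [hball] at hcnt
    rw [relDensity, ← mul_div_assoc]
    refine ENNReal.div_le_div_right ?_ _
    refine le_trans hsum ?_
    calc (Fintype.card ι : ℝ≥0∞) * (cnt u v (r + ρ) * V) 
        = Fintype.card ι * V * (cnt u v (r + ρ)) * ((ENNReal.ofReal (br u v))⁻¹ * ENNReal.ofReal (br u v)) := by
          rw [ENNReal.inv_mul_cancel hD0 hDtop]; ring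
      _ = Fintype.card ι * V / ENNReal.ofReal (br u v) * (cnt u v (r + ρ) * ENNReal.ofReal (br u v)) := by
          rw [div_eq_mul_inv]; ring
      _ ≤ _ := by gcongr
  have hlim : Tendsto (fun r : ℝ => Fintype.card ι * V / ENNReal.ofReal (br u v) *
        (ENNReal.ofReal (Real.pi * (r + c) ^ 2) / ENNReal.ofReal (Real.pi * r ^ 2))) atTop
        (nhds (Fintype.card ι * V / ENNReal.ofReal (br u v) * 1)) :=
    ENNReal.Tendsto.const_mul (tendsto_ratio c) (Or.inl one_ne_zero)
  rw [mul_one] at hlim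
  rw [← hlim.liminf_eq, lowerDensity]
  exact liminf_le_liminf ((eventually_ge_atTop (-c)).mono fun r hr => key r (by linarith))

end H78
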