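import Pool.Agent.H78.Equality

open MeasureTheory Metric Set Filter
open scoped ENNReal Pointwise Topology

namespace H78

/-- `(P, Q)` is an oriented segment of the boundary of `C`. -/
def IsEdge (C : Set Plane) (P Q : Plane) : Prop :=
  P ∈ C ∧ Q ∈ C ∧ ∀ w ∈ C, br w (Q - P) ≤ br P (Q - P)

lemma exists_edge_of_not_strictConvex {C : Set Plane} (hC : IsConvexBody C)
    (h : ¬ StrictConvex ℝ C) : ∃ P Q, P ≠ Q ∧ IsEdge C P Q := by
  obtain ⟨hcomp, hconv, hint⟩ := hC
  rw [StrictConvex, Set.Pairwise] at h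
  push Not at h
  obtain ⟨x, hx, y, hy, hxy, a, b, ha, hb, hab, hz⟩ := h
  obtain ⟨f, hf⟩ := geometric_hahn_banach_open_point hconv.interior isOpen_interior hz
  have hfC : ∀ w ∈ C, f w ≤ f (a • x + b • y) := by
    intro w hw
    have hcl : w ∈ closure (interior C) := by
      rw [hconv.closure_interior_eq_closure_of_nonempty_interior hint]
      exact subset_closure hw
    have hclosed : IsClosed {w : Plane | f w ≤ f (a • x + b • y)} :=
      isClosed_le f.continuous continuous_const
    exact closure_minimal (fun v hv => (hf v hv).le) hclosed hcl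
  have hfz : f (a • x + b • y) = a * f x + b * f y := by simp
  have h1 := hfC x hx
  have h2 := hfC y hy
  rw [hfz] at h1 h2
  have hb' : b = 1 - a := by linarith
  subst hb'
  have hfxy : f x = f y := by
    have h3 : (1 - a) * (f x - f y) ≤ 0 := by linarith
    have h4 : a * (f y - f x) ≤ 0 := by linarith
    nlinarith
  have hmax : ∀ w ∈ C, f w ≤ f x := by
    intro w hw
    have := hfC w hw
    rw [hfz, ← hfxy] at this
    linarith
  -- represent f by a bracket
  set e0 : Plane := EuclideanSpace.single 0 (1 : ℝ) with he0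
  set e1 : Plane := EuclideanSpace.single 1 (1 : ℝ) with he1
  set e : Plane := WithLp.toLp 2 ![-(f e1), f e0] with he
  have hfe : ∀ w, f w = br w e := by
    intro w
    have hw : w = w 0 • e0 + w 1 • e1 := by
      apply plane_ext <;> simp [he0, he1]
    conv_lhs => rw [hw]
    rw [map_add, map_smul, map_smul]
    simp [br, he]
  have hene : e ≠ 0 := by
    intro h0
    obtain ⟨v, hv⟩ := hint
    have := hf v hv
    rw [hfe, hfe, h0, br_zero_right, br_zero_right] at this
    exact lt_irrefl _ this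
  obtain ⟨s, hs⟩ := parallel_of_br hene (w := y - x) (by
    rw [← hfe, map_sub, hfxy, sub_self])
  have hs0 : s ≠ 0 := by
    rintro rfl
    rw [zero_smul, sub_eq_zero] at hs
    exact hxy hs.symm
  rcases lt_or_gt_of_ne hs0 with h0 | h0
  · refine ⟨y, x, hxy.symm, hy, hx, fun w hw => ?_⟩
    have : x - y = (-s) • e := by rw [neg_smul, ← hs]; abel
    rw [this, br_smul_right, br_smul_right, ← hfe, ← hfe]
    have := hmax w hw
    rw [hfxy] at this
    nlinarith
  · refine ⟨x, y, hxy, hx, hy, fun w hw => ?_⟩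
    rw [hs, br_smul_right, br_smul_right, ← hfe, ← hfe]
    have := hmax w hw
    nlinarith

lemma exists_longest_edge {C : Set Plane} (hC : IsConvexBody C)
    (h : ¬ StrictConvex ℝ C) : ∃ P Q, P ≠ Q ∧ IsEdge C P Q ∧
      ∀ P' Q', IsEdge C P' Q' → ‖Q' - P'‖ ≤ ‖Q - P‖ := by
  obtain ⟨P0, Q0, hne, hE⟩ := exists_edge_of_not_strictConvex hC h
  set T : Set (Plane × Plane) := (C ×ˢ C) ∩ {z | ∀ w ∈ C, br w (z.2 - z.1) ≤ br z.1 (z.2 - z.1)}
    with hT
  have hclosed : IsClosed {z : Plane × Plane | ∀ w ∈ C, br w (z.2 - z.1) ≤ br z.1 (z.2 - z.1)} := by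
    have : {z : Plane × Plane | ∀ w ∈ C, br w (z.2 - z.1) ≤ br z.1 (z.2 - z.1)} =
        ⋂ w ∈ C, {z | br w (z.2 - z.1) ≤ br z.1 (z.2 - z.1)} := by
      ext z; simp
    rw [this]
    refine isClosed_biInter fun w _ => isClosed_le ?_ ?_ <;> (unfold br; fun_prop)
  have hTc : IsCompact T := (hC.1.prod hC.1).inter_right hclosed
  have hTne : T.Nonempty := ⟨(P0, Q0), ⟨hE.1, hE.2.1⟩, hE.2.2⟩
  have hcont : Continuous fun z : Plane × Plane => ‖z.2 - z.1‖ :=
    (continuous_snd.sub continuous_fst).norm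
  obtain ⟨z, hz, hopt⟩ := hTc.exists_isMaxOn hTne hcont.continuousOn
  obtain ⟨P, Q⟩ := z
  obtain ⟨⟨hP, hQ⟩, hPQ⟩ := hz
  have hopt' : ∀ P' Q', IsEdge C P' Q' → ‖Q' - P'‖ ≤ ‖Q - P‖ := by
    intro P' Q' h'
    have hmem : (P', Q') ∈ T := ⟨⟨h'.1, h'.2.1⟩, h'.2.2⟩
    have h2 := isMaxOn_iff.1 hopt (P', Q') hmem
    simp only at h2
    exact h2
  refine ⟨P, Q, ?_, ⟨hP, hQ, hPQ⟩, hopt'⟩
  rintro rfl
  have := hopt' P0 Q0 hE
  rw [sub_self, norm_zero] at this
  have h0 := norm_le_zero_iff.1 this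
  exact hne (sub_eq_zero.1 h0).symm

/-- A plane convex body with `θ = (4/3) δ` is strictly convex. -/
theorem strictConvex_of_eq {C : Set Plane} (hC : IsConvexBody C)
    (heq : coveringDensity C = 4 / 3 * packingDensity C) : StrictConvex ℝ C := by
  by_contra hns
  obtain ⟨E0, E1, hne, ⟨hE0, hE1, hmax⟩, hlong⟩ := exists_longest_edge hC hns
  obtain ⟨K, hK, -, -, hex, -, hub⟩ := equality_structure hC heq
  obtain ⟨hcomp, hconv, hint⟩ := hC
  set e := E1 - E0 with he
  have hE1' : E1 = E0 + e := by rw [he]; abel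
  have he0 : e ≠ 0 := by rw [he]; exact sub_ne_zero.2 hne.symm
  have henorm : 0 < ‖e‖ := norm_pos_iff.2 he0
  -- opposite support point
  obtain ⟨G, hG, hGmin⟩ := hcomp.exists_isMinOn ⟨E0, hE0⟩ (continuous_br_left e).continuousOn
  have hGmin' : ∀ w ∈ C, br G e ≤ br w e := fun w hw => hGmin hw
  set h := (br E0 e - br G e) / 2 with hh
  have hhpos : 0 < h := by
    obtain ⟨z, hz⟩ := hint
    -- some point has larger value than z
    obtain ⟨d, hd⟩ : ∃ d : Plane, 0 < br d e := by
      by_cases h0 : e 0 = 0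
      · have h1 : e 1 ≠ 0 := fun h1 => he0 (plane_ext (by simpa using h0) (by simpa using h1))
        refine ⟨WithLp.toLp 2 ![e 1, 0], ?_⟩
        simp only [br, h0]; simp
        positivity
      · refine ⟨WithLp.toLp 2 ![0, -(e 0)], ?_⟩
        simp only [br]; simp
        positivity
    obtain ⟨ε, hε, -, hh2⟩ := exists_eps hz d
    have h1 := hmax _ (hh2 ε hε.le le_rfl)
    have h2 := hGmin' z (interior_subset hz)
    rw [br_add_left, br_smul_left] at h1
    have : 0 < ε * br d e := by positivity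
    rw [hh]; linarith
  -- the chords
  obtain ⟨a, ha⟩ : ∃ a : ℝ → Plane, a = fun t => (1 / 2 : ℝ) • (E0 + t • e - G) := ⟨_, rfl⟩
  have haf : ∀ t, br (a t) e = h := by
    intro t
    rw [ha]
    simp only [br_smul_left, br_sub_left, br_add_left, br_self]
    rw [hh]; ring
  have hseg : ∀ t : ℝ, 0 ≤ t → t ≤ 1 → E0 + t • e ∈ C := by
    intro t h0 h1
    have := hconv hE0 hE1 (a := 1 - t) (b := t) (by linarith) h0 (by ring)
    convert this using 1
    rw [hE1']; module
  have hchord : ∀ t : ℝ, 0 ≤ t → t ≤ 1 → MaxChord C (a t) := by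
    intro t h0 h1
    refine ⟨⟨G, hG, E0 + t • e, hseg t h0 h1, by rw [ha]; simp only; module⟩, ?_⟩
    intro τ hτ P hP Q hQ hPQ
    have e1 : br (Q - P) e = 2 * τ * h := by rw [hPQ, br_smul_left, haf]
    rw [br_sub_left] at e1
    have e2 := hmax Q hQ
    have e3 := hGmin' P hP
    have e4 : br E0 e - br G e = 2 * h := by rw [hh]; ring
    nlinarith
  -- structure of the critical parallelograms
  have hpar : ∀ t : ℝ, 0 < t → t < 1 → ∃ x ∈ C, x + a t ∈ C ∧ x + (K / h) • e ∈ C ∧
      x + (K / h) • e + a t ∈ C := by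
    intro t h0 h1
    obtain ⟨x, hx, hxa, y, hy, hya, hbr⟩ := hex (a t) (hchord t h0.le h1.le)
    have key : ∀ s : ℝ, 0 ≤ s → s ≤ 1 → br (a s) (y - x) ≤ K := by
      intro s hs0 hs1
      have := hub x hx y hy (a t) hxa hya G hG _ (hseg s hs0 hs1)
      have e1 : E0 + s • e - G = (2 : ℝ) • a s := by rw [ha]; simp only; module
      rw [e1, br_add_left, hbr, br_smul_left] at this
      linarith
    have k0 := key 0 le_rfl zero_le_one
    have k1 := key 1 zero_le_one le_rfl
    have e0' : a 0 = a t - (t / 2) • e := by rw [ha]; simp only; module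
    have e1' : a 1 = a t + ((1 - t) / 2) • e := by rw [ha]; simp only; module
    rw [e0', br_sub_left, br_smul_left, hbr] at k0
    rw [e1', br_add_left, br_smul_left, hbr] at k1
    have hpe : br e (y - x) = 0 := by
      have g0 : 0 ≤ br e (y - x) := by
        by_contra hcon; push Not at hcon; nlinarith
      have g1 : br e (y - x) ≤ 0 := by
        by_contra hcon; push Not at hcon; nlinarith
      linarith
    obtain ⟨τ, hτ⟩ := parallel_of_br he0 (w := y - x) (by rw [br_swap, hpe, neg_zero])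
    have hτ' : τ = K / h := by
      rw [hτ, br_smul_right, haf] at hbr
      rw [← hbr]; field_simp
    have hy' : y = x + (K / h) • e := by rw [← hτ', ← hτ]; abel
    exact ⟨x, hx, hxa, by rw [← hy']; exact hy, by rw [← hy']; exact hya⟩
  set τ := K / h with hτdef
  have hτpos : 0 < τ := by positivity
  have hKτ : K = τ * h := by rw [hτdef]; field_simp
  obtain ⟨x1, hx1, hxa1, hxb1, hxab1⟩ := hpar (1 / 8) (by norm_num) (by norm_num)
  obtain ⟨x2, hx2, hxa2, hxb2, hxab2⟩ := hpar (7 / 8) (by norm_num) (by norm_num)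
  -- τ ≥ 5/7
  have hτ57 : 5 / 7 ≤ τ := by
    have hX := hconv hx1 hE0 (a := 1 / 2) (b := 1 / 2) (by norm_num) (by norm_num) (by norm_num)
    have hXa := hconv hxa1 hE0 (a := 1 / 2) (b := 1 / 2) (by norm_num) (by norm_num) (by norm_num)
    have hY := hconv hxb1 hE1 (a := 1 / 2) (b := 1 / 2) (by norm_num) (by norm_num) (by norm_num)
    have hYa := hconv hxab1 hE1 (a := 1 / 2) (b := 1 / 2) (by norm_num) (by norm_num) (by norm_num)
    have := hub _ hX _ hY ((1 / 2 : ℝ) • a (1 / 8)) (by convert hXa using 1; module)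
      (by convert hYa using 1; module) G hG _ (hseg 0 le_rfl zero_le_one)
    have e1 : E0 + (0 : ℝ) • e - G = (2 : ℝ) • a 0 := by rw [ha]; simp only; module
    have e2 : (1 / 2 : ℝ) • (x1 + τ • e) + (1 / 2 : ℝ) • E1 - ((1 / 2 : ℝ) • x1 + (1 / 2 : ℝ) • E0) =
        ((τ + 1) / 2) • e := by rw [hE1']; module
    rw [e1, e2, br_smul_right, br_add_left, br_smul_left, br_smul_left, haf, haf, hKτ] at this
    have h5 : h * (5 * (τ + 1)) ≤ h * (12 * τ) := by linarith
    have := le_of_mul_le_mul_left h5 hhpos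
    linarith
  -- the set of chords with vector b
  have hwid : ∀ x ∈ C, x + τ • e ∈ C → ∀ x' ∈ C, x' + τ • e ∈ C → br x' e - br x e ≤ h := by
    intro x hx hxb x' hx' hxb'
    have := hub x hx (x + τ • e) hxb (x' - x) (by convert hx' using 1; abel)
      (by convert hxb' using 1; abel) G hG _ (hseg 0 le_rfl zero_le_one)
    have e1 : E0 + (0 : ℝ) • e - G = (2 : ℝ) • a 0 := by rw [ha]; simp only; module
    rw [e1, add_sub_cancel_left, br_smul_right, br_add_left, br_smul_left, haf, hKτ, br_sub_left] at this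
    have h5 : τ * (br x' e - br x e) ≤ τ * h := by linarith
    exact le_of_mul_le_mul_left h5 hτpos
  have hf1 : br x1 e = br x2 e := by
    have g1 := hwid x2 hx2 hxb2 (x1 + a (1 / 8)) hxa1 (by convert hxab1 using 1; abel)
    have g2 := hwid x1 hx1 hxb1 (x2 + a (7 / 8)) hxa2 (by convert hxab2 using 1; abel)
    rw [br_add_left, haf] at g1 g2
    linarith
  have hda : a (7 / 8) - a (1 / 8) = (3 / 8 : ℝ) • e := by rw [ha]; simp only; module
  -- uniqueness of an extreme chord which is not on an edge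
  have huniq : ∀ r r' w : Plane, r ∈ C → r + τ • e ∈ C → r' ∈ C → r' + τ • e ∈ C → w ∈ C →
      ∀ ρ : ℝ, 0 < ρ → r' - r = ρ • e →
      ∃ r'' ∈ C, r'' + τ • e ∈ C ∧ ∃ ε : ℝ, 0 < ε ∧ br r'' e = br r e + ε * (br w e - br r e) := by
    intro r r' w hr hrb hr' hrb' hw ρ hρ hrr
    have hpos : 0 < ρ + τ := by linarith
    have hsum : τ / (ρ + τ) + ρ / (ρ + τ) = 1 := by field_simp; ring
    refine ⟨(τ / (ρ + τ)) • r + (ρ / (ρ + τ)) • w, hconv hr hw (by positivity) (by positivity) hsum,
      ?_, ρ / (ρ + τ), by positivity, ?_⟩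
    · have := hconv hrb' hw (a := τ / (ρ + τ)) (b := ρ / (ρ + τ)) (by positivity) (by positivity) hsum
      convert this using 1
      have : r' = r + ρ • e := by rw [← hrr]; abel
      rw [this]
      have e3 : (τ / (ρ + τ)) * (ρ + τ) = τ := by field_simp
      have : τ • e = ((τ / (ρ + τ)) * (ρ + τ)) • e := by rw [e3]
      rw [this]; 
      rw [show (τ / (ρ + τ)) • (r + ρ • e + (τ / (ρ + τ) * (ρ + τ)) • e) =
        (τ / (ρ + τ)) • (r + ρ • e + τ • e) by rw [e3]]
      module
    · rw [br_add_left, br_smul_left, br_smul_left]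
      have : τ / (ρ + τ) = 1 - ρ / (ρ + τ) := by linarith
      rw [this]; ring
  have hsame_top : br x1 e + h < br E0 e → x1 + a (1 / 8) = x2 + a (7 / 8) := by
    intro hlt
    obtain ⟨ρ, hρ⟩ := parallel_of_br he0 (w := (x2 + a (7 / 8)) - (x1 + a (1 / 8))) (by
      rw [br_sub_left, br_add_left, br_add_left, haf, haf, hf1]; ring)
    rcases lt_trichotomy ρ 0 with h0 | h0 | h0
    · obtain ⟨r, hr, hrb, ε, hε, hbr⟩ := huniq (x2 + a (7 / 8)) (x1 + a (1 / 8)) E0 hxa2
        (by convert hxab2 using 1; abel) hxa1 (by convert hxab1 using 1; abel) hE0 (-ρ) (by linarith)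
        (by rw [neg_smul, ← hρ]; abel)
      have := hwid x1 hx1 hxb1 r hr hrb
      rw [hbr, br_add_left, haf, ← hf1] at this
      nlinarith
    · rw [h0, zero_smul, sub_eq_zero] at hρ
      exact hρ.symm
    · obtain ⟨r, hr, hrb, ε, hε, hbr⟩ := huniq (x1 + a (1 / 8)) (x2 + a (7 / 8)) E0 hxa1
        (by convert hxab1 using 1; abel) hxa2 (by convert hxab2 using 1; abel) hE0 ρ h0 hρ
      have := hwid x1 hx1 hxb1 r hr hrb
      rw [hbr, br_add_left, haf] at this
      nlinarith
  have hsame_bot : br G e < br x1 e → x1 = x2 := by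
    intro hlt
    obtain ⟨ρ, hρ⟩ := parallel_of_br he0 (w := x2 - x1) (by
      rw [br_sub_left, hf1]; ring)
    rcases lt_trichotomy ρ 0 with h0 | h0 | h0
    · obtain ⟨r, hr, hrb, ε, hε, hbr⟩ := huniq x2 x1 G hx2 hxb2 hx1 hxb1 hG (-ρ) (by linarith)
        (by rw [neg_smul, ← hρ]; abel)
      have := hwid r hr hrb (x1 + a (1 / 8)) hxa1 (by convert hxab1 using 1; abel)
      rw [hbr, br_add_left, haf, ← hf1] at this
      nlinarith
    · rw [h0, zero_smul, sub_eq_zero] at hρ
      exact hρ.symm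
    · obtain ⟨r, hr, hrb, ε, hε, hbr⟩ := huniq x1 x2 G hx1 hxb1 hx2 hxb2 hG ρ h0 hρ
      have := hwid r hr hrb (x1 + a (1 / 8)) hxa1 (by convert hxab1 using 1; abel)
      rw [hbr, br_add_left, haf] at this
      nlinarith
  have h2h : br E0 e - br G e = 2 * h := by rw [hh]; ring
  have hx1G := hGmin' x1 hx1
  have hx1E : br x1 e + h ≤ br E0 e := by
    have := hmax _ hxa1
    rw [br_add_left, haf] at this; exact this
  rcases eq_or_lt_of_le hx1E with hcase | hcase
  · -- top chord on the edge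
    have hx : x1 = x2 := hsame_bot (by linarith)
    have hedge : IsEdge C (x1 + a (1 / 8)) (x2 + τ • e + a (7 / 8)) := by
      refine ⟨hxa1, hxab2, fun w hw => ?_⟩
      have e5 : x2 + τ • e + a (7 / 8) - (x1 + a (1 / 8)) = (3 / 8 + τ) • e := by
        rw [← hx]
        have : a (7 / 8) = a (1 / 8) + (3 / 8 : ℝ) • e := by rw [← hda]; abel
        rw [this]; module
      rw [e5, br_smul_right, br_smul_right, br_add_left, haf, hcase]
      have := hmax w hw
      exact mul_le_mul_of_nonneg_left this (by linarith)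
    have := hlong _ _ hedge
    have e5 : x2 + τ • e + a (7 / 8) - (x1 + a (1 / 8)) = (3 / 8 + τ) • e := by
      rw [← hx]
      have : a (7 / 8) = a (1 / 8) + (3 / 8 : ℝ) • e := by rw [← hda]; abel
      rw [this]; module
    rw [e5, norm_smul, Real.norm_eq_abs, abs_of_pos (by linarith)] at this
    nlinarith
  · have hr := hsame_top hcase
    rcases eq_or_lt_of_le hx1G with hcase2 | hcase2
    · have hx12 : x1 - x2 = (3 / 8 : ℝ) • e := by
        rw [← hda]
        have : x1 = x2 + a (7 / 8) - a (1 / 8) := by rw [← hr]; abel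
        rw [this]; abel
      have e5 : x2 - (x1 + τ • e) = (-(3 / 8 + τ)) • e := by
        have : x1 = x2 + (3 / 8 : ℝ) • e := by rw [← hx12]; abel
        rw [this]; module
      have hedge : IsEdge C (x1 + τ • e) x2 := by
        refine ⟨hxb1, hx2, fun w hw => ?_⟩
        rw [e5, br_smul_right, br_smul_right, br_add_left, br_smul_left, br_self, mul_zero, add_zero,
          ← hcase2]
        have := hGmin' w hw
        nlinarith
      have := hlong _ _ hedge
      rw [e5, norm_smul, Real.norm_eq_abs, abs_neg, abs_of_pos (by linarith)] at this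
      nlinarith
    · have hx := hsame_bot hcase2
      have : a (1 / 8) = a (7 / 8) := by
        rw [hx] at hr
        exact add_left_cancel hr
      rw [this, sub_self] at hda
      have h3 : (3 / 8 : ℝ) • e ≠ 0 := smul_ne_zero (by norm_num) he0
      exact h3 hda.symm

end H78
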