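import Pool.Agent.H78.DensityDefs

open MeasureTheory Metric Set Filter
open scoped ENNReal Pointwise

namespace H78

/-- The bracket (determinant) of two plane vectors. -/
def br (x y : Plane) : ℝ := x 0 * y 1 - x 1 * y 0

lemma br_add_left (x y z : Plane) : br (x + y) z = br x z + br y z := by simp [br]; ring
lemma br_add_right (x y z : Plane) : br x (y + z) = br x y + br x z := by simp [br]; ring
lemma br_sub_left (x y z : Plane) : br (x - y) z = br x z - br y z := by simp [br]; ring
lemma br_sub_right (x y z : Plane) : br x (y - z) = br x y - br x z := by simp [br]; ring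
lemma br_smul_left (c : ℝ) (x y : Plane) : br (c • x) y = c * br x y := by simp [br]; ring
lemma br_smul_right (c : ℝ) (x y : Plane) : br x (c • y) = c * br x y := by simp [br]; ring
lemma br_neg_left (x y : Plane) : br (-x) y = - br x y := by simp [br]; ring
lemma br_neg_right (x y : Plane) : br x (-y) = - br x y := by simp [br]; ring
lemma br_self (x : Plane) : br x x = 0 := by simp [br]; ring
lemma br_zero_left (x : Plane) : br 0 x = 0 := by simp [br]
lemma br_zero_right (x : Plane) : br x 0 = 0 := by simp [br]
lemma br_swap (x y : Plane) : br x y = - br y x := by simp [br]; ring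

lemma continuous_br_left (y : Plane) : Continuous fun x : Plane => br x y := by
  unfold br; fun_prop
lemma continuous_br_right (x : Plane) : Continuous fun y : Plane => br x y := by
  unfold br; fun_prop

lemma plane_ext {x y : Plane} (h0 : x 0 = y 0) (h1 : x 1 = y 1) : x = y := by
  ext i; fin_cases i <;> assumption

/-- Coordinates with respect to a basis `u, v`. -/
lemma coords {u v : Plane} (h : br u v ≠ 0) (p : Plane) :
    p = (br p v / br u v) • u + (br u p / br u v) • v := by
  apply plane_ext
  · simp only [PiLp.add_apply, PiLp.smul_apply, smul_eq_mul]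
    field_simp
    simp only [br]; ring
  · simp only [PiLp.add_apply, PiLp.smul_apply, smul_eq_mul]
    field_simp
    simp only [br]; ring

/-- The linear map with matrix rows `(α β) (γ δ)`. -/
noncomputable def mat2 (α β γ δ : ℝ) : Plane →ₗ[ℝ] Plane :=
  Matrix.toLin (EuclideanSpace.basisFun (Fin 2) ℝ).toBasis (EuclideanSpace.basisFun (Fin 2) ℝ).toBasis
    !![α, β; γ, δ]

lemma det_mat2 (α β γ δ : ℝ) : LinearMap.det (mat2 α β γ δ) = α * δ - β * γ := by
  rw [mat2, LinearMap.det_toLin, Matrix.det_fin_two_of]

lemma mat2_apply0 (α β γ δ : ℝ) (p : Plane) : (mat2 α β γ δ p) 0 = α * p 0 + β * p 1 := by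
  rw [mat2]
  have := congrFun (Matrix.repr_toLin (EuclideanSpace.basisFun (Fin 2) ℝ).toBasis (EuclideanSpace.basisFun (Fin 2) ℝ).toBasis !![α, β; γ, δ] p) 0
  simpa [Matrix.mulVec, dotProduct, Fin.sum_univ_two] using this

lemma mat2_apply1 (α β γ δ : ℝ) (p : Plane) : (mat2 α β γ δ p) 1 = γ * p 0 + δ * p 1 := by
  rw [mat2]
  have := congrFun (Matrix.repr_toLin (EuclideanSpace.basisFun (Fin 2) ℝ).toBasis (EuclideanSpace.basisFun (Fin 2) ℝ).toBasis !![α, β; γ, δ] p) 1
  simpa [Matrix.mulVec, dotProduct, Fin.sum_univ_two] using this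

end H78
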