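import Pool.Agent.H78.RainbowHouseData

/-!
# Soundness of the checker of `RainbowHouseData`
-/

namespace Pool.Agent.H78.RainbowHouse

theorem tb_eq (m v : ℕ) : tb m v = Nat.testBit m v := by
  unfold tb Nat.testBit
  change Nat.beq (1 &&& (m >>> v)) 1 = _
  have h : (1 &&& (m >>> v)) = 0 ∨ (1 &&& (m >>> v)) = 1 := by
    rw [Nat.and_comm, Nat.and_one_is_mod]
    omega
  rcases h with h | h <;> rw [h] <;> rfl

theorem filt_eq (s : ℕ × ℕ → ℕ) (v : ℕ) (k : List (ℕ × ℕ) → Bool) :
    ∀ (L acc : List (ℕ × ℕ)),
      filt s v L acc k = k ((L.filter fun p => !tb (s p) v).reverse ++ acc) := by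
  intro L
  induction L with
  | nil => intro acc; rfl
  | cons p L ih =>
    intro acc
    have h1 : filt s v (p :: L) acc k =
      (Bool.rec (filt s v L (p :: acc) k) (filt s v L acc k) (tb (s p) v) : Bool) := rfl
    rw [h1]
    cases h : tb (s p) v
    · simp only [ih, List.filter_cons, h, Bool.not_false, if_true, List.reverse_cons,
        List.append_assoc, List.cons_append, List.nil_append]
    · simp only [ih, List.filter_cons, h, Bool.not_true, Bool.false_eq_true, if_false]

/-- the pattern `p` is realised, where `A` is the set of codes of the edges of the complement -/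
def Real (A : ℕ → Prop) (p : ℕ × ℕ) : Prop :=
  (∀ v, Nat.testBit p.1 v = true → A v) ∧ (∀ v, Nat.testBit p.2 v = true → ¬ A v)

theorem leaf_list (e : ℕ) (L : List (ℕ × ℕ))
    (h : (List.rec (motive := fun _ => Bool) true
        (fun q _ ih => Bool.rec ih false (Nat.beq (Nat.land q.1 e) 0)) L : Bool) = true) :
    ∀ q ∈ L, q.1 &&& e ≠ 0 := by
  induction L with
  | nil => intro q hq; simp at hq
  | cons q L ih =>
    intro r hr
    change (Bool.rec (List.rec (motive := fun _ => Bool) true
        (fun q _ ih => Bool.rec ih false (Nat.beq (Nat.land q.1 e) 0)) L) false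
        (Nat.beq (Nat.land q.1 e) 0) : Bool) = true at h
    cases hb : Nat.beq (Nat.land q.1 e) 0 with
    | true => rw [hb] at h; exact absurd h (by simp)
    | false =>
      rw [hb] at h
      rcases List.mem_cons.mp hr with rfl | hr
      · intro h0
        have : Nat.beq (r.1 &&& e) 0 = false := hb
        rw [h0] at this
        exact absurd this (by decide)
      · exact ih h r hr

theorem check_sound (A : ℕ → Prop) (L0 : List (ℕ × ℕ)) : ∀ (t : Tr) (K : ℕ) (L : List (ℕ × ℕ)),
    check t K L = true → (∀ v, Nat.testBit K v = true → A v) →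
    (∀ p ∈ L0, Real A p → p ∈ L) →
    ∃ p e : ℕ, maskOK p e = true ∧ (∀ v, Nat.testBit e v = true → A v) ∧
      (∀ q ∈ L0, Real A q → q.1 &&& e ≠ 0) := by
  intro t
  induction t with
  | l p e =>
    intro K L h hK hL
    have h' : (Nat.beq (Nat.land e K) e && (maskOK p e &&
      List.rec (motive := fun _ => Bool) true
        (fun q _ ih => Bool.rec ih false (Nat.beq (Nat.land q.1 e) 0)) L)) = true := h
    rw [Bool.and_eq_true, Bool.and_eq_true] at h'
    obtain ⟨h1, h2, h3⟩ := h'
    refine ⟨p, e, h2, ?_, ?_⟩
    · intro v hv
      have h4 : e &&& K = e := Nat.eq_of_beq_eq_true h1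
      apply hK
      have h5 := congrArg (fun m => Nat.testBit m v) h4
      simp only [Nat.testBit_and] at h5
      rw [hv] at h5
      simpa using h5
    · intro q hq hr
      exact leaf_list e L h3 q (hL q hq hr)
  | n v a b iha ihb =>
    intro K L h hK hL
    have h' : (filt (fun p => p.1) v L [] (fun L' => check a K L') &&
      filt (fun p => p.2) v L [] (fun L' => check b (Nat.lor K (Nat.pow 2 v)) L')) = true := h
    rw [Bool.and_eq_true, filt_eq, filt_eq] at h'
    obtain ⟨h1, h2⟩ := h'
    by_cases hA : A v
    · refine ihb _ _ h2 ?_ ?_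
      · intro w hw
        have hw' : Nat.testBit (K ||| 2 ^ v) w = true := hw
        rw [Nat.testBit_or, Bool.or_eq_true] at hw'
        rcases hw' with hw' | hw'
        · exact hK w hw'
        · rw [Nat.testBit_two_pow] at hw'
          have : v = w := by simpa using hw'
          exact this ▸ hA
      · intro p hp hr
        rw [List.append_nil, List.mem_reverse, List.mem_filter]
        refine ⟨hL p hp hr, ?_⟩
        rw [tb_eq]
        cases hb : Nat.testBit p.2 v
        · rfl
        · exact absurd hA (hr.2 v hb)
    · refine iha _ _ h1 hK ?_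
      intro p hp hr
      rw [List.append_nil, List.mem_reverse, List.mem_filter]
      refine ⟨hL p hp hr, ?_⟩
      rw [tb_eq]
      cases hb : Nat.testBit p.1 v
      · rfl
      · exact absurd (hr.1 v hb) hA

theorem tree_sound (A : ℕ → Prop) (h0 : A 0) (h2 : A 2) (h5 : A 5) (h9 : A 9) :
    ∃ p e : ℕ, maskOK p e = true ∧ (∀ v, Nat.testBit e v = true → A v) ∧
      (∀ q ∈ patterns, Real A q → q.1 &&& e ≠ 0) := by
  refine check_sound A patterns tree 549 patList check_tree ?_ ?_
  · intro v hv
    by_cases hv10 : v < 10
    · interval_cases v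
      · exact h0
      · exact absurd hv (by decide)
      · exact h2
      · exact absurd hv (by decide)
      · exact absurd hv (by decide)
      · exact h5
      · exact absurd hv (by decide)
      · exact absurd hv (by decide)
      · exact absurd hv (by decide)
      · exact h9
    · exfalso
      have : Nat.testBit 549 v = false := by
        apply Nat.testBit_lt_two_pow
        calc 549 < 2 ^ 10 := by norm_num
          _ ≤ 2 ^ v := Nat.pow_le_pow_right (by norm_num) (by omega)
      rw [this] at hv
      exact absurd hv (by decide)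
  · intro p hp _
    rw [← patterns_eq]
    exact hp

end Pool.Agent.H78.RainbowHouse
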