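import Pool.Agent.H78.Equality

open MeasureTheory Metric Set Filter
open scoped ENNReal Pointwise Topology

namespace H78

/-- A function with `F s - F t = O((s-t)²)` locally is constant. -/
lemma const_of_sq (F : ℝ → ℝ) (h : ∀ t, ∃ c : ℝ, ∀ᶠ s in 𝓝 t, |F s - F t| ≤ c * (s - t) ^ 2) :
    ∀ s t, F s = F t := by
  have hd : ∀ t, HasDerivAt F 0 t := by
    intro t
    obtain ⟨c, hc⟩ := h t
    rw [hasDerivAt_iff_isLittleO]
    have h1 : (fun s => F s - F t - (s - t) • (0 : ℝ)) =O[𝓝 t] fun s => (s - t) ^ 2 := by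
      refine Asymptotics.IsBigO.of_bound c ?_
      filter_upwards [hc] with s hs
      simpa using hs
    refine h1.trans_isLittleO ?_
    have h2 : (fun s : ℝ => s - t) =o[𝓝 t] fun _ => (1 : ℝ) := by
      rw [Asymptotics.isLittleO_one_iff]
      have : Tendsto (fun s : ℝ => s - t) (𝓝 t) (𝓝 (t - t)) := tendsto_id.sub_const t
      simpa using this
    have h3 := h2.mul_isBigO (Asymptotics.isBigO_refl (fun s : ℝ => s - t) (𝓝 t))
    simpa [pow_two] using h3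
  exact is_const_of_deriv_eq_zero (fun t => (hd t).differentiableAt) (fun t => (hd t).deriv)

lemma abs_br_le (x y : Plane) : |br x y| ≤ ‖x‖ * ‖y‖ := by
  rw [← Real.sqrt_sq (mul_nonneg (norm_nonneg x) (norm_nonneg y)), ← Real.sqrt_sq_eq_abs]
  apply Real.sqrt_le_sqrt
  rw [mul_pow, EuclideanSpace.norm_sq_eq, EuclideanSpace.norm_sq_eq]
  simp only [Fin.sum_univ_two, Real.norm_eq_abs, sq_abs, br]
  nlinarith [sq_nonneg (x 0 * y 0 + x 1 * y 1)]

/-- a priori bounds for the transition matrix of two hexagons -/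
lemma form_bounds {e1 e2 e3 e4 : ℝ}
    (h1 : 2 * e1 + e2 ≤ 0) (h2 : e3 + 2 * e4 ≤ 0) 
    (h4 : 2 * e4 - e2 ≤ 0) (h5 : 2 * e1 - e3 ≤ 0) 
    (hdet : (1 + e1) * (1 + e4) - e2 * e3 = 1) (h4' : 1 / 2 ≤ 1 + e4) (h2' : |e2| ≤ 1 / 8) :
    |e4| ≤ 4 * |e2| ∧ |e3| ≤ 16 * |e2| ∧ -(e1 + e4) ≤ 32 * |e2| ^ 2 ∧ |e1| ≤ 8 * |e2| := by
  set τ := -(e1 + e4) with hτ
  have ht0 : 0 ≤ τ := by linarith
  have he1 : e1 = -τ - e4 := by rw [hτ]; ring
  have htdet : τ * (1 + e4) = -e4 ^ 2 - e2 * e3 := by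
    rw [he1] at hdet; linear_combination -hdet
  have a2 := abs_nonneg e2
  have a3 := abs_nonneg e3
  have a4 := abs_nonneg e4
  have hb : -(e2 * e3) ≤ |e2| * |e3| := by rw [← abs_mul]; exact neg_le_abs _
  have hp : 0 ≤ τ * (1 + e4) := by positivity
  have hs4 : |e4| ^ 2 ≤ |e2| * |e3| := by
    rw [sq_abs]; linarith
  have hp2 : τ * (1 / 2) ≤ τ * (1 + e4) := mul_le_mul_of_nonneg_left h4' ht0
  have htau : τ ≤ 2 * (|e2| * |e3|) := by linarith [sq_nonneg e4]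
  have h3a : |e3| ≤ 2 * |e4| + 2 * τ := by
    rw [abs_le]; constructor
    · have := le_abs_self e4; linarith
    · have := neg_abs_le e4; linarith
  have h23 : |e2| * |e3| ≤ 1 / 8 * |e3| := mul_le_mul_of_nonneg_right h2' a3
  have h34 : |e3| ≤ 4 * |e4| := by linarith
  have h42 : |e4| ≤ 4 * |e2| := by
    rcases eq_or_lt_of_le a4 with h | h
    · rw [← h]; positivity
    · have h7 : |e2| * |e3| ≤ |e2| * (4 * |e4|) := mul_le_mul_of_nonneg_left h34 a2
      have : |e4| * |e4| ≤ |e4| * (4 * |e2|) := by linarith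
      exact le_of_mul_le_mul_left this h
  set E := |e2| with hE
  have b3 : |e3| ≤ 16 * E := by linarith
  have h8 : E * |e3| ≤ E * (16 * E) := mul_le_mul_of_nonneg_left b3 a2
  have btau : τ ≤ 32 * E ^ 2 := by linarith
  have h9 : E * E ≤ 1 / 8 * E := mul_le_mul_of_nonneg_right h2' a2
  have b1 : |e1| ≤ 8 * E := by
    rw [he1]
    have h7 : |-τ - e4| ≤ τ + |e4| := by
      rw [abs_le]; constructor
      · have := le_abs_self e4; linarith
      · have := neg_abs_le e4; linarith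
    linarith
  exact ⟨h42, b3, btau, b1⟩

/-- the algebraic core: closeness of the quadratic forms of two hexagons -/
lemma form_close {e1 e2 e3 e4 X Y M : ℝ}
    (h1 : 2 * e1 + e2 ≤ 0) (h2 : e3 + 2 * e4 ≤ 0) (h3 : e1 + e4 - e2 - e3 ≤ 0)
    (h4 : 2 * e4 - e2 ≤ 0) (h5 : 2 * e1 - e3 ≤ 0) (_h6 : e1 + e2 + e3 + e4 ≤ 0)
    (hdet : (1 + e1) * (1 + e4) - e2 * e3 = 1) (h4' : 1 / 2 ≤ 1 + e4) (h2' : |e2| ≤ 1 / 8)
    (hX : |X| ≤ M) (hY : |Y| ≤ M) :
    |(((1 + e4) * X - e3 * Y) ^ 2 + ((1 + e4) * X - e3 * Y) * (-e2 * X + (1 + e1) * Y) +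
      (-e2 * X + (1 + e1) * Y) ^ 2) - (X ^ 2 + X * Y + Y ^ 2)| ≤ 2000 * M ^ 2 * e2 ^ 2 := by
  obtain ⟨h42, b3, btau, b1⟩ := form_bounds h1 h2 h4 h5 hdet h4' h2'
  have hE2 : |e2| ^ 2 = e2 ^ 2 := sq_abs e2
  have hE0' : 0 ≤ |e2| := abs_nonneg e2
  generalize hE : |e2| = E at *
  have mulb : ∀ x y α β : ℝ, |x| ≤ α * E → |y| ≤ β * E → 0 ≤ α → |x * y| ≤ (α * β) * E ^ 2 := by
    intro x y α β hx hy hα
    rw [abs_mul]
    calc |x| * |y| ≤ (α * E) * (β * E) := mul_le_mul hx hy (abs_nonneg _) (by positivity)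
      _ = _ := by ring
  have b2 : |e2| ≤ 1 * E := by rw [one_mul, hE]
  -- the difference
  have hdiff : (((1 + e4) * X - e3 * Y) ^ 2 + ((1 + e4) * X - e3 * Y) * (-e2 * X + (1 + e1) * Y) +
      (-e2 * X + (1 + e1) * Y) ^ 2) - (X ^ 2 + X * Y + Y ^ 2) =
      ((2 * e4 - e2) + (e4 * e4 - e2 * e4 + e2 * e2)) * X ^ 2 +
      ((-2 * (e2 + e3) + (e1 + e4)) + (-2 * (e3 * e4) + e1 * e4 + e2 * e3 - 2 * (e1 * e2))) * (X * Y) +
      ((2 * e1 - e3) + (e3 * e3 - e1 * e3 + e1 * e1)) * Y ^ 2 := by ring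
  rw [hdiff]
  have c1 : |(2 * e4 - e2) + (e4 * e4 - e2 * e4 + e2 * e2)| ≤ 100 * E ^ 2 := by
    have m44 := abs_le.1 (mulb e4 e4 _ _ h42 h42 (by norm_num))
    have m24 := abs_le.1 (mulb e2 e4 _ _ b2 h42 (by norm_num))
    have m22 := abs_le.1 (mulb e2 e2 _ _ b2 b2 (by norm_num))
    rw [abs_le]; constructor <;> linarith
  have c2 : |(-2 * (e2 + e3) + (e1 + e4)) + (-2 * (e3 * e4) + e1 * e4 + e2 * e3 - 2 * (e1 * e2))| ≤
      400 * E ^ 2 := by
    have m34 := abs_le.1 (mulb e3 e4 _ _ b3 h42 (by norm_num))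
    have m14 := abs_le.1 (mulb e1 e4 _ _ b1 h42 (by norm_num))
    have m23 := abs_le.1 (mulb e2 e3 _ _ b2 b3 (by norm_num))
    have m12 := abs_le.1 (mulb e1 e2 _ _ b1 b2 (by norm_num))
    rw [abs_le]; constructor <;> linarith
  have c3 : |(2 * e1 - e3) + (e3 * e3 - e1 * e3 + e1 * e1)| ≤ 700 * E ^ 2 := by
    have m33 := abs_le.1 (mulb e3 e3 _ _ b3 b3 (by norm_num))
    have m13 := abs_le.1 (mulb e1 e3 _ _ b1 b3 (by norm_num))
    have m11 := abs_le.1 (mulb e1 e1 _ _ b1 b1 (by norm_num))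
    rw [abs_le]; constructor <;> linarith
  have hXX : |X ^ 2| ≤ M ^ 2 := by rw [abs_pow]; gcongr
  have hYY : |Y ^ 2| ≤ M ^ 2 := by rw [abs_pow]; gcongr
  have hXY : |X * Y| ≤ M ^ 2 := by
    rw [abs_mul, pow_two]
    exact mul_le_mul hX hY (abs_nonneg _) ((abs_nonneg X).trans hX)
  have hE0 : 0 ≤ E ^ 2 := by positivity
  have hM0 : 0 ≤ M ^ 2 := by positivity
  calc _ ≤ |((2 * e4 - e2) + (e4 * e4 - e2 * e4 + e2 * e2)) * X ^ 2| +
      |((-2 * (e2 + e3) + (e1 + e4)) + (-2 * (e3 * e4) + e1 * e4 + e2 * e3 - 2 * (e1 * e2))) * (X * Y)| +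
      |((2 * e1 - e3) + (e3 * e3 - e1 * e3 + e1 * e1)) * Y ^ 2| := abs_add_three _ _ _
    _ ≤ 100 * E ^ 2 * M ^ 2 + 400 * E ^ 2 * M ^ 2 + 700 * E ^ 2 * M ^ 2 := by
        rw [abs_mul _ (X ^ 2), abs_mul _ (X * Y), abs_mul _ (Y ^ 2)]
        have d1 := mul_le_mul c1 hXX (abs_nonneg _) (by positivity)
        have d2 := mul_le_mul c2 hXY (abs_nonneg _) (by positivity)
        have d3 := mul_le_mul c3 hYY (abs_nonneg _) (by positivity)
        linarith
    _ ≤ 2000 * M ^ 2 * e2 ^ 2 := by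
        rw [← hE2]
        have := mul_nonneg hE0 hM0
        linarith

/-- Data of a critical hexagon `a, p, p - a` of a symmetric body, `κ = K/2`. -/
structure Hex (C : Set Plane) (κ : ℝ) (a p : Plane) : Prop where
  ha : a ∈ C
  hp : p ∈ C
  hq : p - a ∈ C
  hbr : br a p = κ
  t1 : ∀ z ∈ C, br z ((2 : ℝ) • p - a) ≤ 2 * κ
  t2 : ∀ z ∈ C, br z (p - (2 : ℝ) • a) ≤ 2 * κ
  t3 : ∀ z ∈ C, br z (-(a + p)) ≤ 2 * κ

/-- value at `z` of the quadratic form of the hexagon -/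
noncomputable def qf (κ : ℝ) (a p z : Plane) : ℝ :=
  (br z p / κ) ^ 2 + (br z p / κ) * (br a z / κ) + (br a z / κ) ^ 2

lemma Hex.close {C : Set Plane} {κ : ℝ} (hκ : 0 < κ) {a p a' p' : Plane} (H : Hex C κ a p)
    (H' : Hex C κ a' p') {z : Plane} {M : ℝ} (h4 : κ / 2 ≤ br a p') (h2 : |br a a'| ≤ κ / 8)
    (hX : |br z p / κ| ≤ M) (hY : |br a z / κ| ≤ M) :
    |qf κ a' p' z - qf κ a p z| ≤ 2000 * M ^ 2 * (br a a' / κ) ^ 2 := by
  set e1 := br a' p / κ - 1 with he1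
  set e2 := br a a' / κ with he2
  set e3 := br p' p / κ with he3
  set e4 := br a p' / κ - 1 with he4
  have k1 : br a' p = κ * (1 + e1) := by rw [he1]; field_simp; ring
  have k2 : br a a' = κ * e2 := by rw [he2]; field_simp
  have k3 : br p' p = κ * e3 := by rw [he3]; field_simp
  have k4 : br a p' = κ * (1 + e4) := by rw [he4]; field_simp; ring
  have s1 := br_swap a' a
  have s2 := br_swap p' a
  have s3 := br_swap p p'
  have s4 := br_swap p a'
  have ne : br a p ≠ 0 := by rw [H.hbr]; exact hκ.ne'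
  have ca' := coords ne a'
  have cp' := coords ne p'
  rw [H.hbr] at ca' cp'
  have ca : a' = (1 + e1) • a + e2 • p := by
    conv_lhs => rw [ca']
    rw [k1, k2]
    congr 2 <;> field_simp
  have cp : p' = e3 • a + (1 + e4) • p := by
    conv_lhs => rw [cp']
    rw [k3, k4]
    congr 2 <;> field_simp
  have cancel : ∀ r : ℝ, κ * r ≤ 0 → r ≤ 0 := fun r hr => by
    by_contra h; push Not at h; nlinarith
  have g1 : 2 * e1 + e2 ≤ 0 := by
    apply cancel
    have := H.t1 a' H'.ha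
    rw [br_sub_right, br_smul_right, s1, k1, k2] at this; linarith
  have g2 : e3 + 2 * e4 ≤ 0 := by
    apply cancel
    have := H.t2 p' H'.hp
    rw [br_sub_right, br_smul_right, s2, k3, k4] at this; linarith
  have g3 : e1 + e4 - e2 - e3 ≤ 0 := by
    apply cancel
    have := H.t3 _ H'.hq
    rw [br_neg_right, br_add_right, br_sub_left, br_sub_left, s1, s2, k1, k2, k3, k4] at this
    linarith
  have g4 : 2 * e4 - e2 ≤ 0 := by
    apply cancel
    have := H'.t1 a H.ha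
    rw [br_sub_right, br_smul_right, k2, k4] at this; linarith
  have g5 : 2 * e1 - e3 ≤ 0 := by
    apply cancel
    have := H'.t2 p H.hp
    rw [br_sub_right, br_smul_right, s3, s4, k1, k3] at this; linarith
  have g6 : e1 + e2 + e3 + e4 ≤ 0 := by
    apply cancel
    have := H'.t3 _ H.hq
    rw [br_neg_right, br_add_right, br_sub_left, br_sub_left, s3, s4, k1, k2, k3, k4] at this
    linarith
  have gdet : (1 + e1) * (1 + e4) - e2 * e3 = 1 := by
    have := H'.hbr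
    rw [ca, cp] at this
    simp only [br_add_left, br_add_right, br_smul_left, br_smul_right, br_self, H.hbr] at this
    rw [br_swap p a, H.hbr] at this
    have h8 : κ * ((1 + e1) * (1 + e4) - e2 * e3) = κ * 1 := by linarith
    exact mul_left_cancel₀ hκ.ne' h8
  have g4' : 1 / 2 ≤ 1 + e4 := by
    rw [k4] at h4
    have : κ * (1 / 2) ≤ κ * (1 + e4) := by linarith
    exact le_of_mul_le_mul_left this hκ
  have g2' : |e2| ≤ 1 / 8 := by
    rw [k2, abs_mul, abs_of_pos hκ] at h2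
    have : κ * |e2| ≤ κ * (1 / 8) := by linarith
    exact le_of_mul_le_mul_left this hκ
  have := form_close g1 g2 g3 g4 g5 g6 gdet g4' g2' hX hY
  have hX' : br z p' / κ = (1 + e4) * (br z p / κ) - e3 * (br a z / κ) := by
    rw [cp, br_add_right, br_smul_right, br_smul_right, br_swap z a]; field_simp; ring
  have hY' : br a' z / κ = -e2 * (br z p / κ) + (1 + e1) * (br a z / κ) := by
    rw [ca, br_add_left, br_smul_left, br_smul_left, br_swap p z]; field_simp; ring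
  rw [qf, qf, hX', hY']
  exact this

end H78
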